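import Pool.Agent.H39.MonoR.Defs2

/-!
# Definitions for the local version of the motivic monodromy conjecture (MP_432c1b_ag)

* `YW`: truncated arcs with `f(φ) ≡ c t^(N-1) mod t^N` and origin in `W`;
* `ZmotW`: the motivic zeta function with support `W`;
* `IsBSOn`, `IsRootOn`, `EigOn`: functional equations on the principal open set `g ≠ 0`, roots of
  the Bernstein-Sato polynomial of `f` on it, eigenvalues of the monodromy of `f` on it;
* `locz k f g = f + v (g u - 1)`.
-/

set_option autoImplicit false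

namespace Pool.Agent.H39.MonoLoc

open MvPolynomial Pool.Agent.H39.MonoR

section

variable (k : Type) [Field k] [Algebra k ℂ] {σ : Type}

/-- the truncated arcs `φ mod t^N` with `f(φ) ≡ c t^(N-1) mod t^N` and origin `φ(0)` in `W` -/
def YW (N : ℕ) (c : k) (f : MvPolynomial σ k) (W : Set (σ → ℂ)) : Set (σ × Fin N → ℂ) :=
  {φ | φ ∈ Y k N c f ∧ (fun j => PowerSeries.constantCoeff (arc φ j)) ∈ W}

/-- the motivic zeta function of `f` with support in `W`: only arcs with origin in `W` count -/
noncomputable def ZmotW [Finite σ] (W : Set (σ → ℂ)) (f : MvPolynomial σ k) :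
    PowerSeries (M k) :=
  PowerSeries.mk fun d =>
    mot k (YW k (d + 1) 1 f W) * ↑(Lu k ^ (-((Nat.card σ * d : ℕ) : ℤ)))

/-- the auxiliary series of contact loci with support -/
noncomputable def PmotW [Finite σ] (W : Set (σ → ℂ)) (f : MvPolynomial σ k) :
    PowerSeries (M k) :=
  PowerSeries.mk fun d => if d = 0 then 0 else
    mot k (YW k d 0 f W) * ↑(Lu k ^ (-((Nat.card σ * d : ℕ) : ℤ)))

end

section

variable (k : Type) [Field k] {σ : Type}

/-- `b` satisfies a functional equation `P(s) f^{s+1} = b(s) g^e f^s`, `P(s) = ∑ s^i P_i`, i.e. a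
functional equation for `f` with a differential operator on the open set `g ≠ 0` -/
def IsBSOn (g f : MvPolynomial σ k) (b : Polynomial k) : Prop :=
  ∃ (e d : ℕ) (P : ℕ → Module.End k (MvPolynomial σ k)), (∀ i, IsDiffOp k (P i)) ∧ ∀ n : ℕ,
    ∑ i ∈ Finset.range d, (n : k) ^ i • P i (f ^ (n + 1)) = b.eval (n : k) • (g ^ e * f ^ n)

/-- `α` is a root of the Bernstein-Sato polynomial of `f` on the open set `g ≠ 0` -/
def IsRootOn (g f : MvPolynomial σ k) (α : ℚ) : Prop :=
  ∀ b : Polynomial k, IsBSOn k g f b → b.eval (α : k) = 0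

/-- `exp(2πi a/b)` is an eigenvalue of the monodromy of `f` at a point of `f = 0`, `g ≠ 0` -/
def EigOn [Algebra k ℂ] (g f : MvPolynomial σ k) (a : ℤ) (b : ℕ) : Prop :=
  ∃ α : ℚ, ((α = -1 ∧ ∃ x : σ → ℂ, aeval x f = 0 ∧ aeval x g ≠ 0) ∨ IsRootOn k g f α) ∧
    ∃ z : ℤ, α - a / b = z

/-- `f + v (g u - 1)` -/
noncomputable def locz (f g : MvPolynomial σ k) : MvPolynomial (σ ⊕ Bool) k :=
  rename Sum.inl f +
    X (Sum.inr false) * (rename Sum.inl g * X (Sum.inr true) - 1)

end

end Pool.Agent.H39.MonoLoc
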