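import Pool.Agent.H39.MonoR.D
import Pool.Agent.H39.MonoLoc.Defs

/-!
# Bernstein-Sato polynomials of `f` on `g ≠ 0` and of `f + v (g u - 1)`
-/

set_option autoImplicit false

namespace Pool.Agent.H39.MonoLoc

open MvPolynomial Pool.Agent.H39.MonoR

section D

variable {k : Type} [Field k] {σ : Type}

/-- `g u - 1` -/
noncomputable def hh (g : MvPolynomial σ k) : MvPolynomial (σ ⊕ Bool) k :=
  rename Sum.inl g * X (Sum.inr true) - 1

theorem locz_eq (f g : MvPolynomial σ k) :
    locz k f g = rename Sum.inl f + X (Sum.inr false) * hh g := rfl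

/-- multiplication operators -/
noncomputable def mu {τ : Type} (q : MvPolynomial τ k) : DiffOps k τ :=
  ⟨LinearMap.mulLeft k q, Algebra.subset_adjoin (Or.inl ⟨_, rfl⟩)⟩

theorem ac_mu {τ : Type} (q x : MvPolynomial τ k) : ac (mu q) x = q * x := rfl

/-- `q (v h)^j` -/
noncomputable def el (g : MvPolynomial σ k) (j : ℕ) (q : MvPolynomial σ k) :
    MvPolynomial (σ ⊕ Bool) k :=
  rename Sum.inl q * (X (Sum.inr false) * hh g) ^ j

theorem el_smul (g : MvPolynomial σ k) (j : ℕ) (c : k) (q : MvPolynomial σ k) :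
    el g j (c • q) = c • el g j q := by
  simp [el]

theorem el_mul (g : MvPolynomial σ k) (j : ℕ) (p q : MvPolynomial σ k) :
    el g j (p * q) = rename Sum.inl p * el g j q := by
  simp [el, mul_assoc]

theorem el_sum (g : MvPolynomial σ k) (j : ℕ) (s : Finset ℕ) (x : ℕ → MvPolynomial σ k) :
    el g j (∑ i ∈ s, x i) = ∑ i ∈ s, el g j (x i) := by
  simp only [el, map_sum, Finset.sum_mul]

/-! ### extension of operators -/

/-- the extension of the derivation `g δ`, zero on `v` and on `h = g u - 1` -/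
noncomputable def extDerG (g : MvPolynomial σ k)
    (δ : Derivation k (MvPolynomial σ k) (MvPolynomial σ k)) :
    Derivation k (MvPolynomial (σ ⊕ Bool) k) (MvPolynomial (σ ⊕ Bool) k) :=
  mkDerivation k (Sum.elim (fun j => rename Sum.inl g * rename Sum.inl (δ (X j)))
    (fun b => if b = true then -(X (Sum.inr true) * rename Sum.inl (δ g)) else 0))

theorem extDerG_inl (g : MvPolynomial σ k)
    (δ : Derivation k (MvPolynomial σ k) (MvPolynomial σ k)) (q : MvPolynomial σ k) :
    extDerG g δ (rename Sum.inl q) = rename Sum.inl g * rename Sum.inl (δ q) := by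
  induction q using MvPolynomial.induction_on with
  | C a =>
    rw [rename_C]
    have h1 : extDerG g δ (C a) = 0 := by
      rw [← algebraMap_eq]; exact Derivation.map_algebraMap _ _
    have h2 : δ (C a) = 0 := by
      rw [← algebraMap_eq]; exact Derivation.map_algebraMap _ _
    rw [h1, h2, map_zero, mul_zero]
  | add p q hp hq => rw [map_add, map_add, hp, hq, map_add, map_add, mul_add]
  | mul_X p i hp =>
    rw [map_mul, rename_X, Derivation.leibniz, hp, Derivation.leibniz, map_add, smul_eq_mul,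
      smul_eq_mul, smul_eq_mul, smul_eq_mul, map_mul, map_mul, rename_X]
    have : extDerG g δ (X (Sum.inl i)) = rename Sum.inl g * rename Sum.inl (δ (X i)) := by
      simp [extDerG]
    rw [this]
    ring

theorem extDerG_false (g : MvPolynomial σ k)
    (δ : Derivation k (MvPolynomial σ k) (MvPolynomial σ k)) :
    extDerG g δ (X (Sum.inr false)) = 0 := by
  simp [extDerG]

theorem extDerG_true (g : MvPolynomial σ k)
    (δ : Derivation k (MvPolynomial σ k) (MvPolynomial σ k)) :
    extDerG g δ (X (Sum.inr true)) = -(X (Sum.inr true) * rename Sum.inl (δ g)) := by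
  simp [extDerG]

theorem extDerG_hh (g : MvPolynomial σ k)
    (δ : Derivation k (MvPolynomial σ k) (MvPolynomial σ k)) : extDerG g δ (hh g) = 0 := by
  rw [hh, map_sub, Derivation.leibniz, extDerG_inl, extDerG_true, Derivation.map_one_eq_zero,
    smul_eq_mul, smul_eq_mul]
  ring

theorem extDerG_pow (g : MvPolynomial σ k)
    (δ : Derivation k (MvPolynomial σ k) (MvPolynomial σ k)) (j : ℕ) :
    extDerG g δ ((X (Sum.inr false) * hh g) ^ j) = 0 := by
  rw [Derivation.leibniz_pow, Derivation.leibniz, extDerG_hh, extDerG_false]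
  simp

theorem exists_extG' (g : MvPolynomial σ k) {T : Module.End k (MvPolynomial σ k)}
    (hT : T ∈ DiffOps k σ) : ∀ K : ℕ, ∃ M : ℕ, ∃ T' ∈ DiffOps k (σ ⊕ Bool),
      ∀ (j : ℕ) (q : MvPolynomial σ k),
      T' (rename Sum.inl g ^ K * el g j q) = rename Sum.inl g ^ M * el g j (T q) := by
  unfold DiffOps at hT
  induction hT using Algebra.adjoin_induction with
  | mem T hT =>
    intro K
    rcases hT with ⟨p, rfl⟩ | ⟨δ, rfl⟩
    · refine ⟨K, LinearMap.mulLeft k (rename Sum.inl p), Algebra.subset_adjoin (Or.inl ⟨_, rfl⟩),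
        fun j q => ?_⟩
      rw [LinearMap.mulLeft_apply, LinearMap.mulLeft_apply, el_mul]
      ring
    · refine ⟨K + 1, (extDerG g δ : _ →ₗ[k] _) -
        LinearMap.mulLeft k ((K : MvPolynomial (σ ⊕ Bool) k) * rename Sum.inl (δ g)),
        Subalgebra.sub_mem _ (Algebra.subset_adjoin (Or.inr ⟨_, rfl⟩))
          (Algebra.subset_adjoin (Or.inl ⟨_, rfl⟩)), fun j q => ?_⟩
      rw [LinearMap.sub_apply, LinearMap.mulLeft_apply, Derivation.coeFn_coe, el,
        Derivation.leibniz, Derivation.leibniz, extDerG_pow, extDerG_inl, Derivation.leibniz_pow,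
        extDerG_inl, el, smul_zero, zero_add]
      rcases K with _ | K
      · simp only [pow_zero, smul_eq_mul, zero_smul, one_mul, Nat.cast_zero,
          zero_mul, sub_zero, zero_add, pow_one, Derivation.coeFn_coe]
        ring
      · simp only [smul_eq_mul, nsmul_eq_mul, Nat.add_sub_cancel, Derivation.coeFn_coe]
        push_cast
        ring
  | algebraMap r =>
    intro K
    refine ⟨K, algebraMap k _ r, Subalgebra.algebraMap_mem _ r, fun j q => ?_⟩
    rw [Module.algebraMap_end_apply, Module.algebraMap_end_apply, el_smul, mul_smul_comm]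
  | add x y _ _ hx hy =>
    intro K
    obtain ⟨M1, x', hx', hx⟩ := hx K
    obtain ⟨M2, y', hy', hy⟩ := hy K
    refine ⟨M1 + M2, LinearMap.mulLeft k (rename Sum.inl g ^ M2) * x' +
      LinearMap.mulLeft k (rename Sum.inl g ^ M1) * y',
      Subalgebra.add_mem _ (Subalgebra.mul_mem _ (Algebra.subset_adjoin (Or.inl ⟨_, rfl⟩)) hx')
        (Subalgebra.mul_mem _ (Algebra.subset_adjoin (Or.inl ⟨_, rfl⟩)) hy'), fun j q => ?_⟩
    rw [LinearMap.add_apply, Module.End.mul_apply, Module.End.mul_apply, hx, hy,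
      LinearMap.mulLeft_apply, LinearMap.mulLeft_apply, LinearMap.add_apply]
    simp only [el, map_add]
    ring
  | mul x y _ _ hx hy =>
    intro K
    obtain ⟨M2, y', hy', hy⟩ := hy K
    obtain ⟨M1, x', hx', hx⟩ := hx M2
    refine ⟨M1, x' * y', Subalgebra.mul_mem _ hx' hy', fun j q => ?_⟩
    rw [Module.End.mul_apply, hy, hx, Module.End.mul_apply]

theorem exists_extG (g : MvPolynomial σ k) (D : DiffOps k σ) : ∃ M : ℕ,
    ∃ D' : DiffOps k (σ ⊕ Bool), ∀ (j : ℕ) (q : MvPolynomial σ k),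
      ac D' (el g j q) = rename Sum.inl g ^ M * el g j (ac D q) := by
  obtain ⟨M, T', h1, h2⟩ := exists_extG' g D.2 0
  refine ⟨M, ⟨T', h1⟩, fun j q => ?_⟩
  have := h2 j q
  rw [pow_zero, one_mul] at this
  exact this

/-! ### Euler operator -/

/-- `θ = v ∂_v` -/
noncomputable def tl : DiffOps k (σ ⊕ Bool) := mu (X (Sum.inr false)) * du false

/-- `-θ` -/
noncomputable def ntl : DiffOps k (σ ⊕ Bool) := (-1 : k) • tl

theorem ac_du (b : Bool) (x : MvPolynomial (σ ⊕ Bool) k) :
    ac (du b) x = pderiv (Sum.inr b) x := rfl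

theorem pderiv_false_hh (g : MvPolynomial σ k) : pderiv (Sum.inr false) (hh g) = 0 := by
  classical
  rw [hh, map_sub, Derivation.leibniz, pderiv_inr_inl, pderiv_X_of_ne (by simp)]
  simp

theorem pderiv_true_hh (g : MvPolynomial σ k) :
    pderiv (Sum.inr true) (hh g) = rename Sum.inl g := by
  classical
  rw [hh, map_sub, Derivation.leibniz, pderiv_inr_inl, pderiv_X_self]
  simp

theorem ac_tl (g : MvPolynomial σ k) (j : ℕ) (q : MvPolynomial σ k) :
    ac tl (el g j q) = (j : k) • el g j q := by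
  classical
  rw [tl, ac_mul, ac_mu, ac_du, el, Derivation.leibniz, pderiv_inr_inl, smul_zero, add_zero,
    Derivation.leibniz_pow, Derivation.leibniz, pderiv_X_self, pderiv_false_hh]
  rcases j with _ | j
  · simp
  · rw [show j + 1 - 1 = j from rfl, pow_succ]
    simp only [smul_eq_mul, mul_one, zero_add, nsmul_eq_mul, Nat.cast_smul_eq_nsmul, mul_zero]
    ring

theorem ac_ntl (g : MvPolynomial σ k) (j : ℕ) (q : MvPolynomial σ k) :
    ac ntl (el g j q) = (-(j : k)) • el g j q := by
  have h : ac (ntl : DiffOps k (σ ⊕ Bool)) (el g j q) = (-1 : k) • ac tl (el g j q) := rfl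
  rw [h, ac_tl, smul_smul, neg_one_mul]

theorem ac_sub_tl (g : MvPolynomial σ k) (n j : ℕ) (q : MvPolynomial σ k) :
    ac ((n : DiffOps k (σ ⊕ Bool)) + ntl) (el g j q) = ((n : k) - j) • el g j q := by
  rw [ac_add, ac_nat, ac_ntl, ← add_smul, sub_eq_add_neg]

theorem ac_sub_tl_pow (g : MvPolynomial σ k) (n j i : ℕ) (q : MvPolynomial σ k) :
    ac (((n : DiffOps k (σ ⊕ Bool)) + ntl) ^ i) (el g j q) =
      ((n : k) - j) ^ i • el g j q := by
  induction i with
  | zero => simp [ac]
  | succ i ih => rw [pow_succ', ac_mul, ih, ac_smul, ac_sub_tl, smul_smul, pow_succ]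

theorem ac_aeval_sub_tl (g : MvPolynomial σ k) (n j : ℕ) (b : Polynomial k)
    (q : MvPolynomial σ k) :
    ac (Polynomial.aeval ((n : DiffOps k (σ ⊕ Bool)) + ntl) b) (el g j q) =
      b.eval ((n : k) - j) • el g j q := by
  rw [Polynomial.aeval_eq_sum_range, Polynomial.eval_eq_sum_range, ac_sum, Finset.sum_smul]
  refine Finset.sum_congr rfl fun i _ => ?_
  have : ac (b.coeff i • ((n : DiffOps k (σ ⊕ Bool)) + ntl) ^ i) (el g j q) =
      b.coeff i • ac (((n : DiffOps k (σ ⊕ Bool)) + ntl) ^ i) (el g j q) := rfl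
  rw [this, ac_sub_tl_pow, smul_smul]

theorem locz_pow (f g : MvPolynomial σ k) (n : ℕ) : locz k f g ^ n =
    ∑ j ∈ Finset.range (n + 1), (n.choose j : k) • el g j (f ^ (n - j)) := by
  rw [locz_eq, add_comm, add_pow]
  refine Finset.sum_congr rfl fun j _ => ?_
  rw [el, map_pow, Nat.cast_smul_eq_nsmul, nsmul_eq_mul]
  ring

theorem ac_du_false (f g : MvPolynomial σ k) (n : ℕ) :
    ac (du false) (locz k f g ^ (n + 1)) = ((n : k) + 1) • (hh g * locz k f g ^ n) := by
  classical
  have h3 : pderiv (Sum.inr false) (locz k f g) = hh g := by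
    rw [locz_eq, map_add, pderiv_inr_inl, zero_add, Derivation.leibniz, pderiv_X_self,
      pderiv_false_hh]
    simp
  rw [ac_du, Derivation.leibniz_pow, h3, Nat.add_sub_cancel,
    show ((n : k) + 1) = ((n + 1 : ℕ) : k) by push_cast; rfl, Nat.cast_smul_eq_nsmul]
  congr 1
  rw [smul_eq_mul, mul_comm]

theorem ac_du_du' (f g : MvPolynomial σ k) (n : ℕ) :
    ac (du false * du true) (locz k f g ^ (n + 1)) =
      ((n : k) + 1) • (rename Sum.inl g * ac (1 + tl) (locz k f g ^ n)) := by
  classical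
  have h3 : pderiv (Sum.inr true) (locz k f g) = X (Sum.inr false) * rename Sum.inl g := by
    rw [locz_eq, map_add, pderiv_inr_inl, zero_add, Derivation.leibniz, pderiv_true_hh,
      pderiv_X_of_ne (by simp)]
    simp
  rw [ac_mul, ac_du true, Derivation.leibniz_pow, h3, Nat.add_sub_cancel, ac_add, ac_one, tl,
    ac_mul, ac_mu, ac_du, ac_du, map_nsmul, smul_eq_mul, Derivation.leibniz, Derivation.leibniz,
    pderiv_X_self, pderiv_inr_inl]
  rw [show ((n : k) + 1) = ((n + 1 : ℕ) : k) by push_cast; rfl, Nat.cast_smul_eq_nsmul]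
  congr 1
  simp only [smul_eq_mul, mul_zero, mul_one, zero_add]
  ring

theorem ac_succ_sub_tl (f g : MvPolynomial σ k) (n : ℕ) :
    ac ((n : DiffOps k (σ ⊕ Bool)) + 1 + ntl) (locz k f g ^ (n + 1)) =
      ∑ j ∈ Finset.range (n + 1),
        (((n : k) + 1) * (n.choose j : k)) • el g j (f ^ (n - j + 1)) := by
  have h : (n : DiffOps k (σ ⊕ Bool)) + 1 + ntl =
      ((n + 1 : ℕ) : DiffOps k (σ ⊕ Bool)) + ntl := by
    push_cast; rfl
  rw [h, locz_pow, ac_map_sum, Finset.sum_range_succ]
  simp only [ac_smul, ac_sub_tl, smul_smul]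
  rw [Nat.cast_add_one, sub_self, mul_zero, zero_smul, add_zero]
  refine Finset.sum_congr rfl fun j hj => ?_
  have hj : j ≤ n := Nat.lt_succ_iff.mp (Finset.mem_range.mp hj)
  have h1 := Nat.choose_mul_succ_eq n j
  have h2 : ((n.choose j : ℕ) : k) * ((n : k) + 1) = ((n + 1).choose j : k) * ((n : k) + 1 - j) := by
    have := congrArg (Nat.cast : ℕ → k) h1
    push_cast [Nat.cast_sub (show j ≤ n + 1 by omega)] at this
    exact this
  rw [show n + 1 - j = n - j + 1 by omega, mul_comm ((n : k) + 1), h2]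

/-! ### commutation -/

theorem tl_comm (g : MvPolynomial σ k) :
    Commute (mu (rename Sum.inl g) : DiffOps k (σ ⊕ Bool)) tl := by
  classical
  refine Subtype.ext (LinearMap.ext fun x => ?_)
  show rename Sum.inl g * (X (Sum.inr false) * pderiv (Sum.inr false) x) =
    X (Sum.inr false) * pderiv (Sum.inr false) (rename Sum.inl g * x)
  rw [Derivation.leibniz, pderiv_inr_inl, smul_eq_mul, smul_eq_mul]
  ring

theorem aeval_comm {A : Type*} [Semiring A] [Algebra k A] {a t : A} (h : Commute a t)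
    (p : Polynomial k) : Commute a (Polynomial.aeval t p) := by
  rw [Polynomial.aeval_eq_sum_range]
  exact Commute.sum_right _ _ _ fun i _ => (h.pow_right i).smul_right _

/-! ### the functional equation -/

/-- functional equations, with polynomials over the algebra of differential operators -/
def IsBSOnP (k : Type) [Field k] {σ : Type} (g f : MvPolynomial σ k) (b : Polynomial k) : Prop :=
  ∃ (e : ℕ) (P : Polynomial (DiffOps k σ)), ∀ n : ℕ,
    ac (evn n P) (f ^ (n + 1)) = b.eval (n : k) • (g ^ e * f ^ n)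

theorem IsBSOnP_iff (g f : MvPolynomial σ k) (b : Polynomial k) :
    IsBSOnP k g f b ↔ IsBSOn k g f b :=
  exists_congr fun e =>
    poly_iff (fun n => f ^ (n + 1)) (fun n => b.eval (n : k) • (g ^ e * f ^ n))

/-- a functional equation for `F = f + v(g u - 1)` up to a power of `g` -/
theorem exists_R {f g : MvPolynomial σ k} {b : Polynomial k} (h : IsBSOnP k g f b) :
    ∃ (M : ℕ) (R : Polynomial (DiffOps k (σ ⊕ Bool))), ∀ n : ℕ,
      ac (evn n R) (locz k f g ^ (n + 1)) =
        (((n : k) + 1) * b.eval ((n : k) + 1)) • (rename Sum.inl g ^ M * locz k f g ^ n) := by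
  obtain ⟨e, P, hP⟩ := h
  choose m E hE using exists_extG (σ := σ) (k := k) g
  let m0 : ℕ := P.support.sum fun i => m (P.coeff i)
  have hm0 : ∀ i ∈ P.support, m (P.coeff i) ≤ m0 := fun i hi =>
    Finset.single_le_sum (f := fun i => m (P.coeff i)) (fun _ _ => Nat.zero_le _) hi
  -- the first part
  let P1 : Polynomial (DiffOps k (σ ⊕ Bool)) :=
    ∑ i ∈ P.support, (Polynomial.C (mu (rename Sum.inl g ^ (m0 + 1 - m (P.coeff i))) *
      E (P.coeff i)) : Polynomial (DiffOps k (σ ⊕ Bool))) *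
      ((Polynomial.X : Polynomial (DiffOps k (σ ⊕ Bool))) +
        Polynomial.C (ntl : DiffOps k (σ ⊕ Bool))) ^ i
  have hP1 : ∀ n j : ℕ, j ≤ n → ∀ q : MvPolynomial σ k,
      ac (evn n P1) (el g j q) = rename Sum.inl g ^ (m0 + 1) *
        el g j (ac (P.eval ((n - j : ℕ) : DiffOps k σ)) q) := by
    intro n j hj q
    have h1 : evn n P1 = ∑ i ∈ P.support, mu (rename Sum.inl g ^ (m0 + 1 - m (P.coeff i))) *
        E (P.coeff i) * ((n : DiffOps k (σ ⊕ Bool)) + ntl) ^ i := by
      simp only [P1, map_sum, map_mul, map_pow, map_add, evn_C, evn_X]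
    have h2 : P.eval ((n - j : ℕ) : DiffOps k σ) =
        ∑ i ∈ P.support, P.coeff i * ((n - j : ℕ) : DiffOps k σ) ^ i := Polynomial.eval_eq_sum
    have h3 : ∀ (m i : ℕ) (x : MvPolynomial σ k), ac ((m : DiffOps k σ) ^ i) x =
        (m : k) ^ i • x := by
      intro m i x
      rw [← Nat.cast_pow, ac_nat, Nat.cast_pow]
    rw [h1, h2, ac_sum, ac_sum, el_sum, Finset.mul_sum]
    refine Finset.sum_congr rfl fun i hi => ?_
    rw [ac_mul, ac_sub_tl_pow, ac_smul, ac_mul, hE, ac_mu, ac_mul, h3, ac_smul, el_smul,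
      Nat.cast_sub hj, mul_smul_comm, ← mul_assoc, ← pow_add,
      show m0 + 1 - m (P.coeff i) + m (P.coeff i) = m0 + 1 by have := hm0 i hi; omega]
  -- the quotient
  let ι0 : k →+* Polynomial (Polynomial k) := Polynomial.C.comp Polynomial.C
  let y0 : Polynomial (Polynomial k) := Polynomial.X + Polynomial.C (Polynomial.C (-1) * Polynomial.X)
  obtain ⟨Q0, hQ0⟩ : (Polynomial.X + 1) - y0 ∣
      (b.map ι0).eval (Polynomial.X + 1) - (b.map ι0).eval y0 :=
    Polynomial.sub_dvd_eval_sub _ _ _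
  have hy0 : (Polynomial.X + 1) - y0 = 1 + Polynomial.C Polynomial.X := by
    simp only [y0, map_neg, map_one, neg_mul, one_mul]
    ring
  rw [hy0, sub_eq_iff_eq_add] at hQ0
  let aθ : Polynomial k →+* DiffOps k (σ ⊕ Bool) :=
    ((Polynomial.aeval (tl : DiffOps k (σ ⊕ Bool)) : Polynomial k →ₐ[k] _) :
      Polynomial k →+* DiffOps k (σ ⊕ Bool))
  have haθ : aθ (Polynomial.C (-1) * Polynomial.X) = ntl := by
    show Polynomial.aeval (tl : DiffOps k (σ ⊕ Bool)) (Polynomial.C (-1) * Polynomial.X) = ntl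
    rw [map_mul, Polynomial.aeval_C, Polynomial.aeval_X, ← Algebra.smul_def]
    rfl
  let Q : Polynomial (DiffOps k (σ ⊕ Bool)) := Q0.map aθ
  have hQ : ∀ n : ℕ, Polynomial.aeval ((n : DiffOps k (σ ⊕ Bool)) + 1) b =
      evn n Q * (1 + tl) + Polynomial.aeval ((n : DiffOps k (σ ⊕ Bool)) + ntl) b := by
    intro n
    let Φ : Polynomial (Polynomial k) →+* DiffOps k (σ ⊕ Bool) :=
      (evn n).comp (Polynomial.mapRingHom aθ)
    have hX : Φ Polynomial.X = n := by simp [Φ, evn_X]
    have hC : ∀ c, Φ (Polynomial.C c) = aθ c := fun c => by simp [Φ, evn_C]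
    have hCX : Φ (Polynomial.C Polynomial.X) = tl := by
      rw [hC]; exact Polynomial.aeval_X _
    have hι : Φ.comp ι0 = algebraMap k (DiffOps k (σ ⊕ Bool)) := by
      refine RingHom.ext fun r => ?_
      show Φ (Polynomial.C (Polynomial.C r)) = _
      rw [hC]
      exact Polynomial.aeval_C _ _
    have h1 : ∀ y, Φ ((b.map ι0).eval y) = Polynomial.aeval (Φ y) b := by
      intro y
      rw [Polynomial.eval_map, Polynomial.hom_eval₂, hι, Polynomial.aeval_def]
    have h2 := congrArg Φ hQ0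
    rw [map_add, h1, h1, map_add, hX, map_one, mul_comm, map_mul, map_add, map_one, hCX] at h2
    rw [h2]
    congr 2
    simp only [y0, map_add, hX, hC, haθ]
  have hcomm : ∀ n : ℕ, Commute (mu (rename Sum.inl g) : DiffOps k (σ ⊕ Bool)) (evn n Q) := by
    intro n
    have : evn n Q = Polynomial.aeval (tl : DiffOps k (σ ⊕ Bool)) (Q0.eval (n : Polynomial k)) := by
      show (Q0.map aθ).eval (n : DiffOps k (σ ⊕ Bool)) = aθ (Q0.eval (n : Polynomial k))
      rw [Polynomial.eval_natCast_map]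
    rw [this]
    exact aeval_comm (tl_comm g) _
  refine ⟨m0 + e + 1, P1 * (Polynomial.X + 1 + Polynomial.C ntl) +
    Polynomial.C (mu (rename Sum.inl g ^ (m0 + e))) * Q * Polynomial.C (du false * du true),
    fun n => ?_⟩
  rw [map_add, map_mul, map_mul, map_mul, map_add, map_add, map_one, evn_X, evn_C, evn_C, evn_C,
    ac_add, ac_mul, ac_succ_sub_tl, ac_map_sum]
  have hA : ∀ j ∈ Finset.range (n + 1), ac (evn n P1)
      ((((n : k) + 1) * (n.choose j : k)) • el g j (f ^ (n - j + 1))) =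
      rename Sum.inl g ^ (m0 + e + 1) *
        (((n : k) + 1) • (n.choose j : k) • b.eval ((n : k) - j) • el g j (f ^ (n - j))) := by
    intro j hj
    have hj : j ≤ n := Nat.lt_succ_iff.mp (Finset.mem_range.mp hj)
    rw [ac_smul, hP1 n j hj, show ac (P.eval ((n - j : ℕ) : DiffOps k σ)) (f ^ (n - j + 1)) = _ from
      hP (n - j), el_smul, el_mul, Nat.cast_sub hj, mul_smul, map_pow]
    simp only [mul_smul_comm]
    rw [← mul_assoc, ← pow_add, show m0 + 1 + e = m0 + e + 1 by omega]
  have hB : ac (Polynomial.aeval ((n : DiffOps k (σ ⊕ Bool)) + ntl) b) (locz k f g ^ n) =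
      ∑ j ∈ Finset.range (n + 1), (n.choose j : k) • b.eval ((n : k) - j) •
        el g j (f ^ (n - j)) := by
    rw [locz_pow, ac_map_sum]
    refine Finset.sum_congr rfl fun j _ => ?_
    rw [ac_smul, ac_aeval_sub_tl]
  have hC : ac (Polynomial.aeval ((n : DiffOps k (σ ⊕ Bool)) + 1) b) (locz k f g ^ n) =
      b.eval ((n : k) + 1) • locz k f g ^ n := by
    have := ac_aeval_nat (τ := σ ⊕ Bool) (n + 1) b (locz k f g ^ n)
    push_cast at this
    exact this
  have hD := congrArg (fun T => ac T (locz k f g ^ n)) (hQ n)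
  simp only [ac_add (evn n Q * (1 + tl)), hB, hC] at hD
  have hE2 : ac (mu (rename Sum.inl g ^ (m0 + e)) * evn n Q * (du false * du true))
      (locz k f g ^ (n + 1)) =
      rename Sum.inl g ^ (m0 + e + 1) *
        (((n : k) + 1) • ac (evn n Q * (1 + tl)) (locz k f g ^ n)) := by
    have hc : ∀ x, ac (evn n Q) (rename Sum.inl g * x) = rename Sum.inl g * ac (evn n Q) x := by
      intro x
      have := congrArg (fun T => ac T x) (hcomm n)
      exact this.symm
    rw [ac_mul, ac_du_du', ac_mul, ac_mu, ac_smul, hc, ac_mul]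
    simp only [mul_smul_comm]
    rw [← mul_assoc, ← pow_succ]
  rw [Finset.sum_congr rfl hA, hE2, ← Finset.mul_sum, ← mul_add, ← Finset.smul_sum, ← smul_add,
    add_comm _ (ac (evn n Q * (1 + tl)) (locz k f g ^ n)), ← hD, smul_smul, mul_smul_comm]

theorem IsBS_locz {f g : MvPolynomial σ k} {b : Polynomial k} (h : IsBSOn k g f b) :
    IsBS k (locz k f g) ((Polynomial.X + 1) * b.comp (Polynomial.X + 1)) := by
  rw [← IsBSOnP_iff] at h
  rw [← IsBSP_iff]
  obtain ⟨M, R, hR⟩ := exists_R h
  obtain ⟨H, hH⟩ : (rename Sum.inl g * X (Sum.inr true) : MvPolynomial (σ ⊕ Bool) k) - 1 ∣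
      (rename Sum.inl g * X (Sum.inr true)) ^ M - 1 ^ M := sub_dvd_pow_sub_pow _ _ _
  rw [one_pow] at hH
  refine ⟨Polynomial.C (mu (X (Sum.inr true) ^ M)) * R +
    (b.comp (Polynomial.X + 1)).map (algebraMap k (DiffOps k (σ ⊕ Bool))) *
      Polynomial.C (mu (-H) * du false), fun n => ?_⟩
  have h0 : ∀ T : Polynomial (DiffOps k (σ ⊕ Bool)), T.eval (n : DiffOps k (σ ⊕ Bool)) =
    evn n T := fun _ => rfl
  have h1 : evn n ((b.comp (Polynomial.X + 1)).map (algebraMap k (DiffOps k (σ ⊕ Bool)))) =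
      algebraMap k (DiffOps k (σ ⊕ Bool)) (b.eval ((n : k) + 1)) := by
    rw [evn_apply, Polynomial.eval_natCast_map, Polynomial.eval_comp]
    simp
  have h2 : ∀ (c : k) (x : MvPolynomial (σ ⊕ Bool) k),
      ac (algebraMap k (DiffOps k (σ ⊕ Bool)) c) x = c • x := by
    intro c x
    simp [ac, Module.algebraMap_end_apply]
  show ac _ _ = _
  rw [h0, map_add, map_mul, map_mul, evn_C, evn_C, h1, ac_add, ac_mul, hR, ac_mul, h2, ac_mul,
    ac_du_false, ac_mu, ac_mu]
  have h4 : Polynomial.eval (n : k) ((Polynomial.X + 1) * b.comp (Polynomial.X + 1)) =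
      ((n : k) + 1) * b.eval ((n : k) + 1) := by
    simp [Polynomial.eval_comp]
  rw [h4]
  have h5 : X (Sum.inr true) ^ M * (rename Sum.inl g ^ M * locz k f g ^ n) =
      locz k f g ^ n + H * (hh g * locz k f g ^ n) := by
    have h6 : (rename Sum.inl g * X (Sum.inr true) : MvPolynomial (σ ⊕ Bool) k) ^ M =
        1 + hh g * H := by
      rw [hh]
      linear_combination hH
    rw [mul_pow] at h6
    linear_combination (locz k f g ^ n) * h6
  rw [mul_smul_comm, h5, smul_add, mul_smul_comm, smul_smul, mul_comm (b.eval ((n : k) + 1))]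
  simp

theorem IsRoot_locz [CharZero k] {f g : MvPolynomial σ k} {α : ℚ}
    (h : IsRoot k (locz k f g) α) : α = -1 ∨ IsRootOn k g f (α + 1) := by
  by_cases h1 : α = -1
  · exact Or.inl h1
  · right
    intro b hb
    have h2 := h _ (IsBS_locz hb)
    rw [Polynomial.eval_mul, Polynomial.eval_comp, mul_eq_zero] at h2
    rcases h2 with h2 | h2
    · exfalso
      apply h1
      have h3 : ((α + 1 : ℚ) : k) = 0 := by
        push_cast
        simpa using h2
      have h4 : α + 1 = 0 := by exact_mod_cast h3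
      linarith
    · have h5 : ((α + 1 : ℚ) : k) = (α : k) + 1 := by push_cast; rfl
      rw [h5]
      simpa using h2

end D

end Pool.Agent.H39.MonoLoc
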