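import Pool.Agent.H39.MonoLoc.K1
import Pool.Agent.H39.MonoR.B3

/-!
# The arcs of `f + v (g u - 1)`
-/

set_option autoImplicit false

namespace Pool.Agent.H39.MonoLoc

open MvPolynomial Pool.Agent.H39.MonoR

variable {k : Type} [Field k] [Algebra k ℂ] {σ : Type}

theorem constantCoeff_arcEval {N : ℕ} (x : σ × Fin N → ℂ) (g : MvPolynomial σ k) :
    PowerSeries.constantCoeff (arcEval k x g) =
      aeval (fun j => PowerSeries.constantCoeff (arc x j)) g := by
  have h : ((MvPolynomial.aeval (arc x) : MvPolynomial σ k →ₐ[k] PowerSeries ℂ).toRingHom) =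
      ((MvPolynomial.aeval (arc x) : MvPolynomial σ k →ₐ[k] PowerSeries ℂ) :
        MvPolynomial σ k →+* PowerSeries ℂ) := rfl
  have h1 : (PowerSeries.constantCoeff (R := ℂ)).comp
      ((aeval (arc x) : MvPolynomial σ k →ₐ[k] PowerSeries ℂ) :
        MvPolynomial σ k →+* PowerSeries ℂ) =
      ((aeval (fun j => PowerSeries.constantCoeff (arc x j)) : MvPolynomial σ k →ₐ[k] ℂ) :
        MvPolynomial σ k →+* ℂ) := by
    refine MvPolynomial.ringHom_ext ?_ ?_
    · intro c
      simp only [RingHom.comp_apply, RingHom.coe_coe, MvPolynomial.aeval_C,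
        PowerSeries.algebraMap_apply, PowerSeries.constantCoeff_C]
    · intro j
      simp only [RingHom.comp_apply, RingHom.coe_coe, MvPolynomial.aeval_X]
  exact DFunLike.congr_fun h1 g

/-- the principal open set `g ≠ 0` -/
def Dg (g : MvPolynomial σ k) : Set (σ → ℂ) := {x | aeval x g ≠ 0}

theorem isCons_Dg (g : MvPolynomial σ k) : IsCons k (Dg g) := (IsCons.zero g).compl

/-- arcs with origin in `g ≠ 0` -/
def Vg (N : ℕ) (g : MvPolynomial σ k) : Set (σ × Fin N → ℂ) :=
  {x | PowerSeries.constantCoeff (arcEval k x g) ≠ 0}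

theorem isCons_Vg (N : ℕ) (g : MvPolynomial σ k) : IsCons k (Vg N g) := by
  obtain ⟨p, hp⟩ := exists_coeff_poly (k := k) N 0 g
  have h := (IsCons.zero p).compl
  convert h using 1
  ext x
  simp only [Vg, Set.mem_ofPred_eq, Set.mem_compl_iff, ← hp]
  rw [PowerSeries.coeff_zero_eq_constantCoeff_apply]

theorem YW_Dg (N : ℕ) (c : k) (f g : MvPolynomial σ k) :
    YW k N c f (Dg g) = Y k N c f ∩ Vg N g := by
  ext x
  simp only [YW, Vg, Dg, Set.mem_inter_iff, Set.mem_ofPred_eq, constantCoeff_arcEval]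

theorem cl_CyV [Finite σ] {N i : ℕ} (h1 : 1 ≤ i) (hi : i ≤ N) (f g : MvPolynomial σ k) :
    cl k (Cy k N i f ∩ Vg N g) =
      cl k (YW k i 0 f (Dg g)) * L k ^ (Nat.card σ * (N - i)) := by
  rw [YW_Dg, ← cl_cyl hi ((isCons_Y i 0 f).inter (isCons_Vg i g))]
  congr 1
  ext x
  simp only [Set.mem_inter_iff, Set.mem_ofPred_eq, Cy, Vg, Y]
  refine and_congr ?_ ?_
  · refine forall_congr' fun l => forall_congr' fun hl => ?_
    rw [coeff_arcEval_trunc hi f x hl]
    simp
  · rw [← PowerSeries.coeff_zero_eq_constantCoeff_apply,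
      ← PowerSeries.coeff_zero_eq_constantCoeff_apply, coeff_arcEval_trunc hi g x (by omega)]

theorem arcEval_locz {N : ℕ} (φ : (σ ⊕ Bool) × Fin N → ℂ) (f g : MvPolynomial σ k) :
    arcEval k φ (locz k f g) = arcEval k (xpart φ) f +
      arc φ (Sum.inr false) * (arcEval k (xpart φ) g * arc φ (Sum.inr true) - 1) := by
  unfold arcEval locz
  rw [map_add, map_mul, map_sub, map_mul, map_one, aeval_rename, aeval_rename, aeval_X, aeval_X]
  rfl

/-- the substitution `u ↦ g u - 1` -/
noncomputable def subst (g : MvPolynomial σ k) :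
    MvPolynomial (σ ⊕ Bool) k →ₐ[k] MvPolynomial (σ ⊕ Bool) k :=
  aeval (Sum.elim (fun j => X (Sum.inl j)) (fun b => if b = true then
    rename Sum.inl g * X (Sum.inr true) - 1 else X (Sum.inr false)))

omit [Algebra k ℂ] in
theorem subst_inl (g : MvPolynomial σ k) (j : σ) : subst g (X (Sum.inl j)) = X (Sum.inl j) := by
  simp [subst]

omit [Algebra k ℂ] in
theorem subst_true (g : MvPolynomial σ k) :
    subst g (X (Sum.inr true)) = rename Sum.inl g * X (Sum.inr true) - 1 := by
  simp [subst]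

omit [Algebra k ℂ] in
theorem subst_false (g : MvPolynomial σ k) :
    subst g (X (Sum.inr false)) = X (Sum.inr false) := by
  simp [subst]

omit [Algebra k ℂ] in
theorem subst_rename (g f : MvPolynomial σ k) :
    subst g (rename Sum.inl f) = rename Sum.inl f := by
  have h : (subst g).comp (rename Sum.inl) = (rename Sum.inl : MvPolynomial σ k →ₐ[k] _) := by
    refine MvPolynomial.algHom_ext fun j => ?_
    simp [subst_inl]
  exact DFunLike.congr_fun h f

omit [Algebra k ℂ] in
theorem subst_stab (g f : MvPolynomial σ k) : subst g (stab k f) = locz k f g := by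
  unfold stab locz
  rw [map_add, map_mul, subst_rename, subst_true, subst_false]
  ring

/-- `u ↦ g u - 1` on arcs -/
theorem arcMap_subst_inl {N : ℕ} (g : MvPolynomial σ k) (φ : (σ ⊕ Bool) × Fin N → ℂ) (j : σ)
    (l : Fin N) : arcMap N (subst g) φ (Sum.inl j, l) = φ (Sum.inl j, l) := by
  show PowerSeries.coeff (l : ℕ) (arcEval k φ (subst g (X (Sum.inl j)))) = _
  rw [subst_inl]
  unfold arcEval
  rw [aeval_X, coeff_arc, dif_pos l.2]

theorem arcMap_subst_false {N : ℕ} (g : MvPolynomial σ k) (φ : (σ ⊕ Bool) × Fin N → ℂ)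
    (l : Fin N) : arcMap N (subst g) φ (Sum.inr false, l) = φ (Sum.inr false, l) := by
  show PowerSeries.coeff (l : ℕ) (arcEval k φ (subst g (X (Sum.inr false)))) = _
  rw [subst_false]
  unfold arcEval
  rw [aeval_X, coeff_arc, dif_pos l.2]

theorem arcMap_subst_true {N : ℕ} (g : MvPolynomial σ k) (φ : (σ ⊕ Bool) × Fin N → ℂ)
    (l : Fin N) : arcMap N (subst g) φ (Sum.inr true, l) =
      PowerSeries.coeff (l : ℕ) (arcEval k (xpart φ) g * arc φ (Sum.inr true) - 1) := by
  show PowerSeries.coeff (l : ℕ) (arcEval k φ (subst g (X (Sum.inr true)))) = _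
  rw [subst_true]
  unfold arcEval
  rw [map_sub, map_mul, map_one, aeval_rename, aeval_X]
  rfl

/-- the arcs with `g u = 1` at the origin -/
def H0 (N : ℕ) (g : MvPolynomial σ k) : Set ((σ ⊕ Bool) × Fin N → ℂ) :=
  {φ | PowerSeries.constantCoeff (arcEval k (xpart φ) g * arc φ (Sum.inr true) - 1) = 0}

theorem isCons_H0 (N : ℕ) (g : MvPolynomial σ k) : IsCons k (H0 (k := k) N g) := by
  obtain ⟨p, hp⟩ := exists_coeff_poly (k := k) N 0 (rename Sum.inl g * X (Sum.inr true) - 1 :
    MvPolynomial (σ ⊕ Bool) k)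
  have h := IsCons.zero p
  convert h using 1
  ext x
  have h1 : arcEval k x (rename Sum.inl g * X (Sum.inr true) - 1 :
      MvPolynomial (σ ⊕ Bool) k) = arcEval k (xpart x) g * arc x (Sum.inr true) - 1 := by
    unfold arcEval
    rw [map_sub, map_mul, map_one, aeval_rename, aeval_X]
    rfl
  simp only [H0, Set.mem_ofPred_eq, ← hp]
  rw [h1, PowerSeries.coeff_zero_eq_constantCoeff_apply]

theorem arc_ext {ι : Type} {N : ℕ} {x y : ι × Fin N → ℂ} {j : ι}
    (h : PowerSeries.X ^ N ∣ arc x j - arc y j) (l : Fin N) : x (j, l) = y (j, l) := by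
  have h2 := (PowerSeries.X_pow_dvd_iff.1 h) l l.2
  rw [map_sub, sub_eq_zero, coeff_arc, coeff_arc, dif_pos l.2, dif_pos l.2] at h2
  exact h2

theorem cl_H0 [Finite σ] {N : ℕ} (hN : 1 ≤ N) (c : k) (f g : MvPolynomial σ k) :
    cl k (Y k N c (locz k f g) ∩ H0 N g) =
      cl k {φ : (σ ⊕ Bool) × Fin N → ℂ | (φ ∈ Y k N c (stab k f) ∧
        ∀ l : Fin N, (l : ℕ) < 1 → φ (Sum.inr true, l) = 0) ∧ xpart φ ∈ Vg N g} := by
  have hB : IsCons k {φ : (σ ⊕ Bool) × Fin N → ℂ | (φ ∈ Y k N c (stab k f) ∧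
        ∀ l : Fin N, (l : ℕ) < 1 → φ (Sum.inr true, l) = 0) ∧ xpart φ ∈ Vg N g} := by
    have h2 := ((isCons_Y N c (stab k f)).inter (IsCons.iInter (J := {l : Fin N // (l : ℕ) < 1})
      (fun l => isCons_eq_zero (k := k) (ι := (σ ⊕ Bool) × Fin N) (Sum.inr true, l.1)))).inter
      (isCons_xpart (isCons_Vg N g))
    convert h2 using 1
    ext φ
    simp
  choose p hp using fun q : (σ ⊕ Bool) × Fin N =>
    exists_coeff_poly (k := k) N (q.2 : ℕ) (subst g (X q.1))
  have hmap : ∀ φ : (σ ⊕ Bool) × Fin N → ℂ, (fun q => aeval φ (p q)) =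
      arcMap N (subst g) φ := by
    intro φ
    funext q
    rw [← hp]
    rfl
  have hx : ∀ φ : (σ ⊕ Bool) × Fin N → ℂ, xpart (arcMap N (subst g) φ) = xpart φ := by
    intro φ
    funext q
    exact arcMap_subst_inl g φ q.1 q.2
  refine cl_bij ((isCons_Y N c (locz k f g)).inter (isCons_H0 N g)) hB p ?_
  rw [funext hmap]
  refine ⟨?_, ?_, ?_⟩
  · rintro φ ⟨hφ, hφ0⟩
    have hφ0' : PowerSeries.constantCoeff
      (arcEval k (xpart φ) g * arc φ (Sum.inr true) - 1) = 0 := hφ0
    refine ⟨⟨?_, ?_⟩, ?_⟩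
    · rw [arcMap_mem, subst_stab]
      exact hφ
    · intro l hl
      rw [arcMap_subst_true]
      have : (l : ℕ) = 0 := by omega
      rw [this, PowerSeries.coeff_zero_eq_constantCoeff_apply]
      exact hφ0'
    · rw [hx]
      show PowerSeries.constantCoeff (arcEval k (xpart φ) g) ≠ 0
      intro h0
      rw [map_sub, map_mul, h0, map_one] at hφ0'
      norm_num at hφ0'
  · rintro φ ⟨-, hφ0⟩ ψ ⟨-, -⟩ h
    have hφ0' : PowerSeries.constantCoeff
      (arcEval k (xpart φ) g * arc φ (Sum.inr true) - 1) = 0 := hφ0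
    have hxx : xpart φ = xpart ψ := by
      rw [← hx φ, ← hx ψ]
      exact congrArg xpart h
    have hg0 : IsUnit (arcEval k (xpart φ) g) := by
      rw [PowerSeries.isUnit_iff_constantCoeff, isUnit_iff_ne_zero]
      intro h0
      rw [map_sub, map_mul, h0, map_one] at hφ0'
      norm_num at hφ0'
    have hd : PowerSeries.X ^ N ∣ arcEval k (xpart φ) g *
        (arc φ (Sum.inr true) - arc ψ (Sum.inr true)) := by
      rw [PowerSeries.X_pow_dvd_iff]
      intro m hm
      have h1 := congrFun h (Sum.inr true, (⟨m, hm⟩ : Fin N))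
      rw [arcMap_subst_true, arcMap_subst_true, ← hxx] at h1
      rw [mul_sub, map_sub, sub_eq_zero]
      rw [map_sub, map_sub] at h1
      exact sub_left_inj.1 h1
    have hd2 := (hg0.dvd_mul_left).1 hd
    funext q
    obtain ⟨j | b, l⟩ := q
    · exact congrFun hxx (j, l)
    · cases b
      · have h1 := congrFun h (Sum.inr false, l)
        rw [arcMap_subst_false, arcMap_subst_false] at h1
        exact h1
      · exact arc_ext hd2 l
  · rintro ψ ⟨⟨hψ, hψ0⟩, hψV⟩
    have hψV' : PowerSeries.constantCoeff (arcEval k (xpart ψ) g) ≠ 0 := hψV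
    let w : PowerSeries ℂ := (arcEval k (xpart ψ) g)⁻¹ * (1 + arc ψ (Sum.inr true))
    have hw : arcEval k (xpart ψ) g * w = 1 + arc ψ (Sum.inr true) := by
      simp only [w]
      rw [← mul_assoc, PowerSeries.mul_inv_cancel _ hψV', one_mul]
    let φ : (σ ⊕ Bool) × Fin N → ℂ := fun q =>
      Sum.elim (fun j => ψ (Sum.inl j, q.2)) (fun b => if b = true then
        PowerSeries.coeff (q.2 : ℕ) w else ψ (Sum.inr false, q.2)) q.1
    have hφx : xpart φ = xpart ψ := rfl
    have hφw : PowerSeries.X ^ N ∣ arc φ (Sum.inr true) - w := by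
      rw [PowerSeries.X_pow_dvd_iff]
      intro m hm
      rw [map_sub, coeff_arc, dif_pos hm]
      exact sub_self _
    have hu : PowerSeries.X ^ N ∣
        (arcEval k (xpart φ) g * arc φ (Sum.inr true) - 1) - arc ψ (Sum.inr true) := by
      have h1 : (arcEval k (xpart φ) g * arc φ (Sum.inr true) - 1) - arc ψ (Sum.inr true) =
          arcEval k (xpart ψ) g * (arc φ (Sum.inr true) - w) := by
        rw [hφx, mul_sub, hw]
        ring
      rw [h1]
      exact hφw.mul_left _
    have hco : ∀ l : Fin N, PowerSeries.coeff (l : ℕ)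
        (arcEval k (xpart φ) g * arc φ (Sum.inr true) - 1) = ψ (Sum.inr true, l) := by
      intro l
      have h2 := (PowerSeries.X_pow_dvd_iff.1 hu) l l.2
      rw [map_sub, sub_eq_zero, coeff_arc, dif_pos l.2] at h2
      exact h2
    have hmap2 : arcMap N (subst g) φ = ψ := by
      funext q
      obtain ⟨j | b, l⟩ := q
      · rw [arcMap_subst_inl]
        rfl
      · cases b
        · rw [arcMap_subst_false]
          rfl
        · rw [arcMap_subst_true]
          exact hco l
    refine ⟨φ, ⟨?_, ?_⟩, hmap2⟩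
    · rw [← subst_stab, ← arcMap_mem, hmap2]
      exact hψ
    · show PowerSeries.constantCoeff
        (arcEval k (xpart φ) g * arc φ (Sum.inr true) - 1) = 0
      rw [← PowerSeries.coeff_zero_eq_constantCoeff_apply]
      have := hco ⟨0, hN⟩
      rw [hψ0 ⟨0, hN⟩ (by simp)] at this
      exact this

/-- the polynomial `g u - 1` in the variables `σ ⊕ Unit` -/
noncomputable def gu (g : MvPolynomial σ k) : MvPolynomial (σ ⊕ Unit) k :=
  rename Sum.inl g * X (Sum.inr ()) - 1

theorem arcEval_gu {N : ℕ} (x : (σ ⊕ Unit) × Fin N → ℂ) (g : MvPolynomial σ k) :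
    arcEval k x (gu g) = arcEval k (fun p : σ × Fin N => x (Sum.inl p.1, p.2)) g *
      arc x (Sum.inr ()) - 1 := by
  unfold arcEval gu
  rw [map_sub, map_mul, map_one, aeval_rename, aeval_X]
  rfl

/-- the class of `g u ≠ 1` -/
noncomputable def ee [Finite σ] (g : MvPolynomial σ k) : K0 k :=
  L k ^ (Nat.card σ + 1) - cl k (Y k 1 0 (gu g))

theorem cl_H0c [Finite σ] {N : ℕ} (hN : 1 ≤ N) (c : k) (f g : MvPolynomial σ k) :
    cl k (Y k N c (locz k f g) ∩ (H0 N g)ᶜ) =
      ee g * L k ^ ((Nat.card σ + 1) * (N - 1)) := by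
  let e : (σ ⊕ Unit) × Fin N → (σ ⊕ Bool) × Fin N :=
    fun q => (Sum.map id (fun _ => true) q.1, q.2)
  have h1 : cl k (Y k N c (locz k f g) ∩ (H0 N g)ᶜ) = cl k (Cy k N 1 (gu g))ᶜ := by
    refine cl_reindex ((isCons_Y N c (locz k f g)).inter (isCons_H0 N g).compl)
      (isCons_Cy N 1 (gu g)).compl e ?_
    have hmem : ∀ φ : (σ ⊕ Bool) × Fin N → ℂ, φ ∈ H0 N g ↔
        (fun q => φ (e q)) ∈ Cy k N 1 (gu g) := by
      intro φ
      simp only [H0, Cy, Set.mem_ofPred_eq, arcEval_gu]
      constructor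
      · intro h l hl
        have : l = 0 := by omega
        rw [this, PowerSeries.coeff_zero_eq_constantCoeff_apply]
        exact h
      · intro h
        have := h 0 (by norm_num)
        rw [PowerSeries.coeff_zero_eq_constantCoeff_apply] at this
        exact this
    refine ⟨?_, ?_, ?_⟩
    · rintro φ ⟨-, hφ⟩
      intro h
      exact hφ ((hmem φ).2 h)
    · rintro φ ⟨hφ, hφ0⟩ ψ ⟨hψ, -⟩ h
      have ex : ∀ (j : σ) (l : Fin N), φ (Sum.inl j, l) = ψ (Sum.inl j, l) := fun j l =>
        congrFun h (Sum.inl j, l)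
      have eu : ∀ l : Fin N, φ (Sum.inr true, l) = ψ (Sum.inr true, l) := fun l =>
        congrFun h (Sum.inr (), l)
      have hxx : xpart φ = xpart ψ := by
        funext q
        exact ex q.1 q.2
      have huu : arc φ (Sum.inr true) = arc ψ (Sum.inr true) := by
        ext l
        rw [coeff_arc, coeff_arc]
        by_cases hl : l < N
        · rw [dif_pos hl, dif_pos hl, eu]
        · rw [dif_neg hl, dif_neg hl]
      have hunit : IsUnit (arcEval k (xpart φ) g * arc φ (Sum.inr true) - 1) := by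
        rw [PowerSeries.isUnit_iff_constantCoeff, isUnit_iff_ne_zero]
        exact hφ0
      have hd : PowerSeries.X ^ N ∣ (arcEval k (xpart φ) g * arc φ (Sum.inr true) - 1) *
          (arc φ (Sum.inr false) - arc ψ (Sum.inr false)) := by
        rw [PowerSeries.X_pow_dvd_iff]
        intro m hm
        have h2 := hφ m hm
        have h3 := hψ m hm
        rw [arcEval_locz, map_add] at h2 h3
        rw [← hxx, ← huu] at h3
        have h4 := add_left_cancel (h2.trans h3.symm)
        rw [mul_sub, map_sub, sub_eq_zero, mul_comm, h4, mul_comm]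
      have hd2 := (hunit.dvd_mul_left).1 hd
      funext q
      obtain ⟨j | b, l⟩ := q
      · exact ex j l
      · cases b
        · exact arc_ext hd2 l
        · exact eu l
    · intro χ hχ
      have hχ' : PowerSeries.constantCoeff (arcEval k χ (gu g)) ≠ 0 := by
        intro h0
        refine hχ ?_
        intro l hl
        have : l = 0 := by omega
        rw [this, PowerSeries.coeff_zero_eq_constantCoeff_apply]
        exact h0
      let x : σ × Fin N → ℂ := fun p => χ (Sum.inl p.1, p.2)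
      let w : PowerSeries ℂ := (arcEval k χ (gu g))⁻¹ *
        (PowerSeries.C (algebraMap k ℂ c) * PowerSeries.X ^ (N - 1) - arcEval k x f)
      have hw : arcEval k χ (gu g) * w =
          PowerSeries.C (algebraMap k ℂ c) * PowerSeries.X ^ (N - 1) - arcEval k x f := by
        simp only [w]
        rw [← mul_assoc, PowerSeries.mul_inv_cancel _ hχ', one_mul]
      let φ : (σ ⊕ Bool) × Fin N → ℂ := fun q =>
        Sum.elim (fun j => χ (Sum.inl j, q.2)) (fun b => if b = true then
          χ (Sum.inr (), q.2) else PowerSeries.coeff (q.2 : ℕ) w) q.1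
      have hφe : (fun q => φ (e q)) = χ := by
        funext q
        obtain ⟨j | b, l⟩ := q
        · rfl
        · rfl
      have hφx : xpart φ = x := rfl
      have hφu : arc φ (Sum.inr true) = arc χ (Sum.inr ()) := rfl
      have hφw : PowerSeries.X ^ N ∣ arc φ (Sum.inr false) - w := by
        rw [PowerSeries.X_pow_dvd_iff]
        intro m hm
        rw [map_sub, coeff_arc, dif_pos hm]
        exact sub_self _
      refine ⟨φ, ⟨?_, ?_⟩, hφe⟩
      · intro l hl
        have h2 : PowerSeries.X ^ N ∣ arcEval k φ (locz k f g) -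
            PowerSeries.C (algebraMap k ℂ c) * PowerSeries.X ^ (N - 1) := by
          have h3 : arcEval k φ (locz k f g) -
              PowerSeries.C (algebraMap k ℂ c) * PowerSeries.X ^ (N - 1) =
              arcEval k χ (gu g) * (arc φ (Sum.inr false) - w) := by
            have hG : arcEval k χ (gu g) = arcEval k x g * arc χ (Sum.inr ()) - 1 :=
              arcEval_gu χ g
            rw [arcEval_locz, hφx, hφu]
            linear_combination hw - arc φ (Sum.inr false) * hG
          rw [h3]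
          exact hφw.mul_left _
        have h4 := (PowerSeries.X_pow_dvd_iff.1 h2) l hl
        rw [map_sub, sub_eq_zero] at h4
        rw [h4, PowerSeries.coeff_C_mul, PowerSeries.coeff_X_pow]
        by_cases hl1 : l + 1 = N
        · rw [if_pos hl1, if_pos (by omega)]
          ring
        · rw [if_neg hl1, if_neg (by omega)]
          ring
      · intro h
        rw [hmem, hφe] at h
        exact hχ h
  have h2 : cl k (Cy k N 1 (gu g)) + cl k (Cy k N 1 (gu g))ᶜ =
      L k ^ ((Nat.card σ + 1) * N) := by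
    rw [← cl_union (isCons_Cy N 1 (gu g)) (isCons_Cy N 1 (gu g)).compl disjoint_compl_right,
      Set.union_compl_self, cl_univ]
    congr 1
    rw [Nat.card_prod, Nat.card_sum]
    simp
  rw [cl_Cy hN] at h2
  have h3 : Nat.card (σ ⊕ Unit) = Nat.card σ + 1 := by
    rw [Nat.card_sum]
    simp
  rw [h3] at h2
  rw [h1, ee]
  have h4 : L k ^ ((Nat.card σ + 1) * N) =
      L k ^ (Nat.card σ + 1) * L k ^ ((Nat.card σ + 1) * (N - 1)) := by
    rw [← pow_add]
    congr 1
    obtain ⟨n, rfl⟩ : ∃ n, N = n + 1 := ⟨N - 1, by omega⟩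
    simp
    ring
  rw [h4] at h2
  linear_combination h2

/-- the arcs of `f + v (g u - 1)` -/
theorem cl_locz [Finite σ] {N : ℕ} (hN : 1 ≤ N) (c : k) (f g : MvPolynomial σ k) :
    cl k (Y k N c (locz k f g)) = ee g * L k ^ ((Nat.card σ + 1) * (N - 1)) +
      (L k ^ N * cl k (YW k N c f (Dg g)) +
      ∑ i ∈ Finset.Ico 1 N, (L k - 1) * L k ^ (N - 1) *
        (cl k (YW k i 0 f (Dg g)) * L k ^ (Nat.card σ * (N - i)))) := by
  have h1 : Y k N c (locz k f g) =
      (Y k N c (locz k f g) ∩ (H0 N g)ᶜ) ∪ (Y k N c (locz k f g) ∩ H0 N g) := by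
    rw [← Set.inter_union_distrib_left, Set.compl_union_self, Set.inter_univ]
  have hd : Disjoint (Y k N c (locz k f g) ∩ (H0 N g)ᶜ) (Y k N c (locz k f g) ∩ H0 N g) := by
    rw [Set.disjoint_left]
    rintro φ ⟨-, h⟩ ⟨-, h'⟩
    exact h h'
  rw [h1, cl_union ((isCons_Y N c _).inter (isCons_H0 N g).compl)
    ((isCons_Y N c _).inter (isCons_H0 N g)) hd, cl_H0c hN, cl_H0 hN,
    cl_YV_stab hN c f (isCons_Vg N g), ← YW_Dg]
  congr 2
  refine Finset.sum_congr rfl fun i hi => ?_
  rw [Finset.mem_Ico] at hi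
  rw [cl_CyV hi.1 hi.2.le]

end Pool.Agent.H39.MonoLoc
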