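import Pool.Agent.H39.MonoR.C2
import Pool.Agent.H39.MonoLoc.K2

/-!
# The series of `f + v (g u - 1)`
-/

set_option autoImplicit false

namespace Pool.Agent.H39.MonoLoc

open MvPolynomial Pool.Agent.H39.MonoR

variable {k : Type} [Field k] [Algebra k ℂ] {σ : Type} [Finite σ]

/-- abstract version of the coefficient computation -/
theorem abs_coeff {R : Type*} [CommRing R] (u : Rˣ) (m d : ℕ) (e y : R) (p : ℕ → R) :
    (e * (u : R) ^ ((m + 1) * d) + ((u : R) ^ (d + 1) * y +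
      ∑ i ∈ Finset.Ico 1 (d + 1), ((u : R) - 1) * (u : R) ^ d *
        (p i * (u : R) ^ (m * (d + 1 - i))))) * ↑(u ^ (-(((m + 2) * d : ℕ) : ℤ))) =
      e * ↑(u ^ (-(d : ℤ))) + (u : R) * (↑(u ^ (-(d : ℤ))) * (y * ↑(u ^ (-((m * d : ℕ) : ℤ))))) +
      ((u : R) - 1) * (u : R) ^ m * (↑(u ^ (-(d : ℤ))) *
        ∑ i ∈ Finset.Ico 1 (d + 1), p i * ↑(u ^ (-((m * i : ℕ) : ℤ)))) := by
  have hz : ∀ n : ℕ, (u : R) ^ n = ↑(u ^ ((n : ℕ) : ℤ)) := fun n => by
    rw [zpow_natCast, Units.val_pow_eq_pow_val]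
  have h1 : (u : R) ^ ((m + 1) * d) * ↑(u ^ (-(((m + 2) * d : ℕ) : ℤ))) =
      ↑(u ^ (-(d : ℤ))) := by
    rw [hz, ← Units.val_mul, ← zpow_add]
    congr 2
    push_cast
    ring
  have h2 : (u : R) ^ (d + 1) * ↑(u ^ (-(((m + 2) * d : ℕ) : ℤ))) =
      (u : R) * (↑(u ^ (-(d : ℤ))) * ↑(u ^ (-((m * d : ℕ) : ℤ)))) := by
    have : (u : R) = ↑(u ^ (1 : ℤ)) := by simp
    rw [hz, this, ← Units.val_mul, ← Units.val_mul, ← Units.val_mul]
    rw [zpow_one, ← zpow_add, ← zpow_add, ← zpow_one_add]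
    congr 2
    push_cast
    ring
  have h3 : ∀ i ∈ Finset.Ico 1 (d + 1), ((u : R) - 1) * (u : R) ^ d *
        (p i * (u : R) ^ (m * (d + 1 - i))) * ↑(u ^ (-(((m + 2) * d : ℕ) : ℤ))) =
      ((u : R) - 1) * (u : R) ^ m * (↑(u ^ (-(d : ℤ))) *
        (p i * ↑(u ^ (-((m * i : ℕ) : ℤ))))) := by
    intro i hi
    rw [Finset.mem_Ico] at hi
    have h4 : (u : R) ^ d * (u : R) ^ (m * (d + 1 - i)) * ↑(u ^ (-(((m + 2) * d : ℕ) : ℤ))) =
        (u : R) ^ m * (↑(u ^ (-(d : ℤ))) * ↑(u ^ (-((m * i : ℕ) : ℤ)))) := by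
      rw [hz, hz, hz, ← Units.val_mul, ← Units.val_mul, ← Units.val_mul, ← Units.val_mul,
        ← zpow_add, ← zpow_add, ← zpow_add, ← zpow_add]
      congr 2
      have e2 : ((d + 1 - i : ℕ) : ℤ) = (d : ℤ) + 1 - i := by omega
      push_cast [e2]
      ring
    linear_combination ((u : R) - 1) * p i * h4
  have h5 : (∑ i ∈ Finset.Ico 1 (d + 1), ((u : R) - 1) * (u : R) ^ d *
        (p i * (u : R) ^ (m * (d + 1 - i)))) * ↑(u ^ (-(((m + 2) * d : ℕ) : ℤ))) =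
      ((u : R) - 1) * (u : R) ^ m * (↑(u ^ (-(d : ℤ))) *
        ∑ i ∈ Finset.Ico 1 (d + 1), p i * ↑(u ^ (-((m * i : ℕ) : ℤ)))) := by
    rw [Finset.sum_mul, Finset.mul_sum, Finset.mul_sum]
    exact Finset.sum_congr rfl h3
  linear_combination e * h1 + y * h2 + h5

/-- the sum series -/
noncomputable def GserW (g f : MvPolynomial σ k) : PowerSeries (M k) :=
  PowerSeries.mk fun d => (↑(Lu k ^ (-((d : ℕ) : ℤ))) : M k) *
    ∑ i ∈ Finset.Ico 1 (d + 1), mot k (YW k i 0 f (Dg g)) *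
      ↑(Lu k ^ (-((Nat.card σ * i : ℕ) : ℤ)))

theorem den_mul_GserW (g f : MvPolynomial σ k) :
    den k (-1, 1) * GserW g f = dn k (PmotW k (Dg g) f) := by
  ext d
  rcases d with _ | d
  · rw [den_mul_coeff_zero, dn, PowerSeries.coeff_rescale]
    simp [GserW, PmotW]
  · rw [den_mul_coeff_succ, dn, PowerSeries.coeff_rescale]
    simp only [GserW, PmotW, PowerSeries.coeff_mk]
    rw [← mul_assoc, inv_mul_zpow, ← mul_sub, Finset.sum_Ico_succ_top (by omega),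
      add_sub_cancel_left, if_neg (Nat.succ_ne_zero d)]
    congr 1

/-- the series with coefficients `L^{-d}` -/
noncomputable def geo (k : Type) [Field k] [Algebra k ℂ] : PowerSeries (M k) :=
  PowerSeries.mk fun d => (↑(Lu k ^ (-((d : ℕ) : ℤ))) : M k)

theorem den_mul_geo : den k (-1, 1) * geo k = 1 := by
  ext d
  rcases d with _ | d
  · rw [den_mul_coeff_zero]
    simp [geo]
  · rw [den_mul_coeff_succ]
    simp only [geo, PowerSeries.coeff_mk]
    rw [inv_mul_zpow, sub_self, PowerSeries.coeff_one, if_neg (Nat.succ_ne_zero d)]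

/-- the class of `g u ≠ 1` in `M k` -/
noncomputable def me (g : MvPolynomial σ k) : M k := algebraMap (K0 k) (M k) (ee g)

theorem mot_locz (f g : MvPolynomial σ k) (d : ℕ) (c : k) :
    mot k (Y k (d + 1) c (locz k f g)) *
        ↑(Lu k ^ (-((Nat.card (σ ⊕ Bool) * d : ℕ) : ℤ))) =
      me g * ↑(Lu k ^ (-(d : ℤ))) + (Lu k : M k) * (↑(Lu k ^ (-(d : ℤ))) *
        (mot k (YW k (d + 1) c f (Dg g)) * ↑(Lu k ^ (-((Nat.card σ * d : ℕ) : ℤ))))) +
      ((Lu k : M k) - 1) * (Lu k : M k) ^ (Nat.card σ) *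
        PowerSeries.coeff d (GserW g f) := by
  simp only [GserW, PowerSeries.coeff_mk]
  rw [← abs_coeff, card_sum_bool]
  congr 1
  unfold mot me
  rw [cl_locz (by omega), map_add, map_add, map_mul, map_mul, map_pow, map_pow, map_sum,
    algebraMap_L]
  simp only [Nat.add_sub_cancel]
  congr 2
  refine Finset.sum_congr rfl fun i _ => ?_
  rw [map_mul, map_mul, map_mul, map_pow, map_pow, map_sub, map_one, algebraMap_L]

theorem Z_locz_eq (f g : MvPolynomial σ k) :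
    Zmot k (locz k f g) = PowerSeries.C (me g) * geo k +
      PowerSeries.C (↑(Lu k) : M k) * dn k (ZmotW k (Dg g) f) +
      PowerSeries.C ((↑(Lu k) - 1) * ↑(Lu k) ^ Nat.card σ : M k) * GserW g f := by
  ext d
  have h := mot_locz f g d 1
  rw [map_add, map_add, PowerSeries.coeff_C_mul, PowerSeries.coeff_C_mul,
    PowerSeries.coeff_C_mul, dn, PowerSeries.coeff_rescale]
  simp only [Zmot, ZmotW, geo, PowerSeries.coeff_mk] at h ⊢
  rw [h]
  have h1 : (↑(Lu k ^ (-((d : ℕ) : ℤ))) : M k) = ↑(Lu k)⁻¹ ^ d := by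
    rw [← Units.val_pow_eq_pow_val, ← zpow_natCast, inv_zpow']
  rw [h1]

theorem P_locz_eq (f g : MvPolynomial σ k) :
    Pmot k (locz k f g) = 1 +
      PowerSeries.C (me g * ↑(Lu k ^ (-((Nat.card σ + 2 : ℕ) : ℤ)))) *
        (PowerSeries.X * geo k) +
      dn k (PmotW k (Dg g) f) +
      PowerSeries.C ((↑(Lu k) - 1) * ↑(Lu k ^ (-2 : ℤ)) : M k) *
        (PowerSeries.X * GserW g f) := by
  ext d
  rw [map_add, map_add, map_add, PowerSeries.coeff_C_mul, PowerSeries.coeff_C_mul, dn,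
    PowerSeries.coeff_rescale]
  rcases d with _ | d
  · have h0 : mot k (Y k 0 0 (locz k f g)) = 1 := by
      unfold mot
      have : Y k 0 0 (locz k f g) = Set.univ := by
        ext x
        simp [Y]
      rw [this, cl_univ]
      simp
    simp only [Pmot, PmotW, PowerSeries.coeff_mk]
    rw [h0]
    simp
  · have h := mot_locz f g d 0
    rw [PowerSeries.coeff_succ_X_mul, PowerSeries.coeff_succ_X_mul, PowerSeries.coeff_one,
      if_neg (Nat.succ_ne_zero d)]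
    simp only [Pmot, PmotW, geo, PowerSeries.coeff_mk, if_neg (Nat.succ_ne_zero d)] at h ⊢
    have h0 : (↑(Lu k ^ (-((Nat.card (σ ⊕ Bool) * (d + 1) : ℕ) : ℤ))) : M k) =
        ↑(Lu k ^ (-((Nat.card (σ ⊕ Bool) * d : ℕ) : ℤ))) *
          ↑(Lu k ^ (-((Nat.card σ + 2 : ℕ) : ℤ))) := by
      rw [card_sum_bool, ← Units.val_mul, ← zpow_add]
      congr 2
      push_cast
      ring
    rw [h0, ← mul_assoc, h, add_mul, add_mul]
    have h1 : (Lu k : M k) * (↑(Lu k ^ (-(d : ℤ))) *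
          ↑(Lu k ^ (-((Nat.card σ * d : ℕ) : ℤ)))) * ↑(Lu k ^ (-((Nat.card σ + 2 : ℕ) : ℤ))) =
        (↑(Lu k)⁻¹ ^ (d + 1) * ↑(Lu k ^ (-((Nat.card σ * (d + 1) : ℕ) : ℤ)))) := by
      rw [← Units.val_pow_eq_pow_val, ← Units.val_mul, ← Units.val_mul,
        ← Units.val_mul, ← Units.val_mul, ← zpow_natCast, inv_zpow', ← zpow_add, ← zpow_add,
        ← zpow_one_add, ← zpow_add]
      congr 2
      push_cast
      ring
    have h2 : (Lu k : M k) ^ (Nat.card σ) * ↑(Lu k ^ (-((Nat.card σ + 2 : ℕ) : ℤ))) =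
        ↑(Lu k ^ (-2 : ℤ)) := by
      rw [← Units.val_pow_eq_pow_val, ← Units.val_mul, ← zpow_natCast, ← zpow_add]
      congr 2
      push_cast
      ring
    linear_combination mot k (YW k (d + 1) 0 f (Dg g)) * h1 + ((Lu k : M k) - 1) *
      PowerSeries.coeff d (GserW g f) * h2

theorem Z_locz (f g : MvPolynomial σ k) :
    den k (-1, 1) * Zmot k (locz k f g) = PowerSeries.C (me g) +
      den k (-1, 1) * (PowerSeries.C (↑(Lu k) : M k) * dn k (ZmotW k (Dg g) f)) +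
      PowerSeries.C ((↑(Lu k) - 1) * ↑(Lu k) ^ Nat.card σ : M k) *
        dn k (PmotW k (Dg g) f) := by
  rw [Z_locz_eq, ← den_mul_GserW]
  linear_combination PowerSeries.C (me g) * den_mul_geo (k := k)

theorem P_locz (f g : MvPolynomial σ k) :
    den k (-1, 1) * Pmot k (locz k f g) = den k (-1, 1) +
      PowerSeries.C (me g * ↑(Lu k ^ (-((Nat.card σ + 2 : ℕ) : ℤ)))) * PowerSeries.X +
      dn k (PmotW k (Dg g) f) * den k (-2, 1) := by
  rw [P_locz_eq]
  have h1 := den_mul_GserW g f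
  have h2 : ((Lu k : M k) - 1) * ↑(Lu k ^ (-2 : ℤ)) = ↑(Lu k ^ (-1 : ℤ)) - ↑(Lu k ^ (-2 : ℤ)) := by
    rw [sub_mul, one_mul, ← Units.val_mul, ← zpow_one_add]
    norm_num
  have h3 : den k (-2, 1) = den k (-1, 1) +
      PowerSeries.C ((↑(Lu k) - 1) * ↑(Lu k ^ (-2 : ℤ)) : M k) * PowerSeries.X := by
    rw [h2]
    simp only [den, map_sub, pow_one]
    ring
  rw [h3]
  linear_combination PowerSeries.C (me g * ↑(Lu k ^ (-((Nat.card σ + 2 : ℕ) : ℤ)))) *
      PowerSeries.X * den_mul_geo (k := k) +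
    PowerSeries.C ((↑(Lu k) - 1) * ↑(Lu k ^ (-2 : ℤ)) : M k) * PowerSeries.X * h1

/-- the zeta function with support is obtained from those of `F = f + v(gu-1)` and `F + u'v'` -/
theorem ZW_mem (f g : MvPolynomial σ k) (S1 S2 : Set (ℤ × ℕ))
    (h1 : Zmot k (locz k f g) ∈ RS k S1) (h2 : Zmot k (stab k (locz k f g)) ∈ RS k S2) :
    ZmotW k (Dg g) f ∈ RS k ((fun p : ℤ × ℕ => (p.1 + p.2, p.2)) ''
      ({(-1, 1), (-2, 1)} ∪ S1 ∪ (fun p : ℤ × ℕ => (p.1 + p.2, p.2)) '' S2)) := by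
  set S : Set (ℤ × ℕ) := {(-1, 1), (-2, 1)} ∪ S1 ∪ (fun p : ℤ × ℕ => (p.1 + p.2, p.2)) '' S2
    with hS
  have hA : Zmot k (locz k f g) ∈ RS k S :=
    RS_mono (fun p hp => Or.inl (Or.inr hp)) h1
  have hB : up k (Zmot k (stab k (locz k f g))) ∈ RS k S :=
    RS_mono (fun p hp => Or.inr hp) (up_mem h2)
  obtain ⟨i1, hi1⟩ := (den_unit (k := k) (-1) 1 one_pos).exists_left_inv
  obtain ⟨i2, hi2⟩ := (den_unit (k := k) (-2) 1 one_pos).exists_left_inv
  have hi1m : i1 ∈ RS k S :=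
    Algebra.subset_adjoin (Or.inr ⟨(-1, 1), Or.inl (Or.inl (by simp)), hi1⟩)
  have hi2m : i2 ∈ RS k S :=
    Algebra.subset_adjoin (Or.inr ⟨(-2, 1), Or.inl (Or.inl (by simp)), hi2⟩)
  have e0 := congrArg (up k) (Z_stab (locz k f g))
  simp only [map_mul, map_add, up_dn, up_C, up_den] at e0
  norm_num at e0
  have e1 := Z_locz f g
  have e2 := P_locz f g
  set F := locz k f g with hF
  set D1 := den k (-1, 1)
  set D2 := den k (-2, 1)
  set D0 := den k (0, 1)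
  set ZF := Zmot k F
  set ZB := up k (Zmot k (stab k F))
  set PF := Pmot k F
  set ZW := dn k (ZmotW k (Dg g) f) with hZW
  set PW := dn k (PmotW k (Dg g) f)
  set cm : PowerSeries (M k) := PowerSeries.C (me g) with hcm
  set l : PowerSeries (M k) := PowerSeries.C (↑(Lu k) : M k) with hl
  set li : PowerSeries (M k) := PowerSeries.C (↑(Lu k)⁻¹ : M k) with hli
  have hlm : l * li = 1 := by
    rw [hl, hli, ← map_mul, Units.mul_inv, map_one]
  set m := Nat.card σ with hm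
  have e3 : PowerSeries.C ((↑(Lu k) - 1) * ↑(Lu k) ^ m : M k) = (l - 1) * l ^ m := by
    rw [hl, map_mul, map_sub, map_one, map_pow]
  have e5 : PowerSeries.C (me g * ↑(Lu k ^ (-((m + 2 : ℕ) : ℤ)))) = cm * li ^ (m + 2) := by
    rw [hcm, hli, map_mul, ← map_pow, ← Units.val_pow_eq_pow_val, ← zpow_natCast, inv_zpow']
  rw [e3] at e1
  rw [e5] at e2
  have e0' : D0 * ZB = D0 * (l * ZF) + (l - 1) * l ^ (m + 2) * PF := e0
  have hl1 : l ∈ RS k S := C_mem_RS _ _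
  have hli1 : li ∈ RS k S := C_mem_RS _ _
  have hX : (PowerSeries.X : PowerSeries (M k)) ∈ RS k S := X_mem_RS _
  have hD1 : D1 ∈ RS k S := den_mem_RS _ _
  have hD0 : D0 ∈ RS k S := den_mem_RS _ _
  have hcm1 : cm ∈ RS k S := C_mem_RS _ _
  have hlm2 : l ^ (m + 2) * li ^ (m + 2) = 1 := by rw [← mul_pow, hlm, one_pow]
  -- the auxiliary series
  have hA1 : (l - 1) * l ^ m * PW = i2 * (li ^ 2 * D1 * D0 * (ZB - l * ZF) -
      (l - 1) * l ^ m * (D1 + cm * li ^ (m + 2) * PowerSeries.X)) := by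
    have hq : l ^ 2 * li ^ 2 = 1 := by rw [← mul_pow, hlm, one_pow]
    have : (l - 1) * l ^ m * PW * D2 = li ^ 2 * D1 * D0 * (ZB - l * ZF) -
      (l - 1) * l ^ m * (D1 + cm * li ^ (m + 2) * PowerSeries.X) := by
      linear_combination (-li ^ 2 * D1) * e0' - (l - 1) * l ^ m * e2 -
        ((l - 1) * l ^ m * D1 * PF) * hq
    rw [← this]
    linear_combination (-((l - 1) * l ^ m * PW)) * hi2
  have hA2 : (l - 1) * l ^ m * PW ∈ RS k S := by
    rw [hA1]
    refine mul_mem hi2m (sub_mem (mul_mem (mul_mem (mul_mem (pow_mem hli1 _) hD1) hD0)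
      (sub_mem hB (mul_mem hl1 hA))) (mul_mem (mul_mem (sub_mem hl1 (one_mem _)) (pow_mem hl1 _))
      (add_mem hD1 (mul_mem (mul_mem hcm1 (pow_mem hli1 _)) hX))))
  have hA3 : ZW = li * (ZF - i1 * (cm + (l - 1) * l ^ m * PW)) := by
    linear_combination (-(li * i1)) * e1 + (li * ZF - li * l * ZW) * hi1 - ZW * hlm
  have hA4 : ZW ∈ RS k S := by
    rw [hA3]
    exact mul_mem hli1 (sub_mem hA (mul_mem hi1m (add_mem hcm1 hA2)))
  have := up_mem hA4
  rwa [hZW, up_dn] at this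

end Pool.Agent.H39.MonoLoc
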