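import Pool.Agent.H39.MonoLoc.K3
import Pool.Agent.H39.MonoLoc.D1
import Pool.Agent.H39.MonoR.F

/-!
# The local conjecture with supports
-/

set_option autoImplicit false

namespace Pool.Agent.H39.MonoLoc

open MvPolynomial Pool.Agent.H39.MonoR

section

variable {k : Type} [Field k] [Algebra k ℂ] {σ : Type}

theorem isCons_YW (d : ℕ) (c : k) (f : MvPolynomial σ k) {W : Set (σ → ℂ)} (hW : IsCons k W) :
    IsCons k (YW k (d + 1) c f W) := by
  have h := (isCons_Y (d + 1) c f).inter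
    (hW.reindex (fun j : σ => ((j, 0) : σ × Fin (d + 1))))
  convert h using 1
  ext x
  simp only [YW, Set.mem_inter_iff, Set.mem_ofPred_eq]
  have : (fun j => PowerSeries.constantCoeff (arc x j)) = fun j => x (j, 0) := by
    funext j
    rw [← PowerSeries.coeff_zero_eq_constantCoeff_apply, coeff_arc, dif_pos (Nat.succ_pos d)]
    rfl
  rw [this]

theorem mot_union [Finite σ] {ι : Type} [Finite ι] {A B : Set (ι → ℂ)} (hA : IsCons k A)
    (hB : IsCons k B) (h : Disjoint A B) : mot k (A ∪ B) = mot k A + mot k B := by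
  unfold mot
  rw [cl_union hA hB h, map_add]

theorem ZmotW_union [Finite σ] (f : MvPolynomial σ k) {A B : Set (σ → ℂ)} (hA : IsCons k A)
    (hB : IsCons k B) (h : Disjoint A B) :
    ZmotW k (A ∪ B) f = ZmotW k A f + ZmotW k B f := by
  ext d
  simp only [ZmotW, PowerSeries.coeff_mk, map_add]
  have h1 : YW k (d + 1) 1 f (A ∪ B) = YW k (d + 1) 1 f A ∪ YW k (d + 1) 1 f B := by
    ext x
    simp only [YW, Set.mem_union, Set.mem_ofPred_eq]
    tauto
  have h2 : Disjoint (YW k (d + 1) 1 f A) (YW k (d + 1) 1 f B) := by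
    rw [Set.disjoint_left]
    rintro x ⟨-, hx⟩ ⟨-, hx'⟩
    exact Set.disjoint_left.1 h hx hx'
  rw [h1, mot_union (σ := σ) (isCons_YW d 1 f hA) (isCons_YW d 1 f hB) h2, add_mul]

theorem ZmotW_empty [Finite σ] (f : MvPolynomial σ k) : ZmotW k (∅ : Set (σ → ℂ)) f = 0 := by
  ext d
  simp only [ZmotW, PowerSeries.coeff_mk, map_zero]
  have h1 : YW k (d + 1) 1 f (∅ : Set (σ → ℂ)) = ∅ := by
    ext x
    simp [YW]
  rw [h1, mot, cl_empty, map_zero, zero_mul]

theorem ZmotW_univ [Finite σ] (f : MvPolynomial σ k) :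
    ZmotW k (Set.univ : Set (σ → ℂ)) f = Zmot k f := by
  ext d
  simp only [ZmotW, Zmot, PowerSeries.coeff_mk]
  have h1 : YW k (d + 1) 1 f (Set.univ : Set (σ → ℂ)) = Y k (d + 1) 1 f := by
    ext x
    simp [YW]
  rw [h1]

/-- the conclusion of the local conjecture -/
def Loc (k : Type) [Field k] [Algebra k ℂ] {σ : Type} [Finite σ] (f g : MvPolynomial σ k)
    (W : Set (σ → ℂ)) : Prop :=
  ∃ S : Finset (ℤ × ℕ), (∀ p ∈ S, 0 < p.2) ∧ ZmotW k W f ∈ RS k (S : Set (ℤ × ℕ)) ∧
    ∀ p ∈ S, EigOn k g f p.1 p.2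

theorem Loc_empty [Finite σ] (f g : MvPolynomial σ k) : Loc k f g ∅ := by
  refine ⟨∅, by simp, ?_, by simp⟩
  rw [ZmotW_empty]
  exact zero_mem _

theorem Loc_union [Finite σ] {f g : MvPolynomial σ k} {A B : Set (σ → ℂ)} (hA : IsCons k A)
    (hB : IsCons k B) (h : Disjoint A B) (h1 : Loc k f g A) (h2 : Loc k f g B) :
    Loc k f g (A ∪ B) := by
  classical
  obtain ⟨S1, p1, z1, e1⟩ := h1
  obtain ⟨S2, p2, z2, e2⟩ := h2
  refine ⟨S1 ∪ S2, ?_, ?_, ?_⟩
  · intro p hp
    rcases Finset.mem_union.1 hp with hp | hp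
    · exact p1 p hp
    · exact p2 p hp
  · rw [ZmotW_union f hA hB h]
    refine add_mem (RS_mono ?_ z1) (RS_mono ?_ z2)
    · exact_mod_cast Finset.subset_union_left
    · exact_mod_cast Finset.subset_union_right
  · intro p hp
    rcases Finset.mem_union.1 hp with hp | hp
    · exact e1 p hp
    · exact e2 p hp

theorem Loc_diff [Finite σ] {f g : MvPolynomial σ k} {A B : Set (σ → ℂ)} (hA : IsCons k A)
    (hB : IsCons k B) (h : Disjoint A B) (h1 : Loc k f g (A ∪ B)) (h2 : Loc k f g B) :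
    Loc k f g A := by
  classical
  obtain ⟨S1, p1, z1, e1⟩ := h1
  obtain ⟨S2, p2, z2, e2⟩ := h2
  refine ⟨S1 ∪ S2, ?_, ?_, ?_⟩
  · intro p hp
    rcases Finset.mem_union.1 hp with hp | hp
    · exact p1 p hp
    · exact p2 p hp
  · have h3 : ZmotW k A f = ZmotW k (A ∪ B) f - ZmotW k B f := by
      rw [ZmotW_union f hA hB h]
      ring
    rw [h3]
    refine sub_mem (RS_mono ?_ z1) (RS_mono ?_ z2)
    · exact_mod_cast Finset.subset_union_left
    · exact_mod_cast Finset.subset_union_right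
  · intro p hp
    rcases Finset.mem_union.1 hp with hp | hp
    · exact e1 p hp
    · exact e2 p hp

omit [Algebra k ℂ] in
theorem IsBSOn_mul {f g : MvPolynomial σ k} {b : Polynomial k} (q : MvPolynomial σ k)
    (h : IsBSOn k g f b) : IsBSOn k (g * q) f b := by
  rw [← IsBSOnP_iff] at h ⊢
  obtain ⟨e, P, hP⟩ := h
  refine ⟨e, Polynomial.C (mu (q ^ e)) * P, fun n => ?_⟩
  rw [map_mul, evn_C, ac_mul, ac_mu, hP n, mul_smul_comm]
  congr 1
  ring

omit [Algebra k ℂ] in
theorem IsRootOn_mul {f g : MvPolynomial σ k} {α : ℚ} (q : MvPolynomial σ k)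
    (h : IsRootOn k (g * q) f α) : IsRootOn k g f α :=
  fun b hb => h b (IsBSOn_mul q hb)

theorem EigOn_mul {f g : MvPolynomial σ k} {a : ℤ} {b : ℕ} (q : MvPolynomial σ k)
    (h : EigOn k (g * q) f a b) : EigOn k g f a b := by
  obtain ⟨α, h1, z, h2⟩ := h
  refine ⟨α, ?_, z, h2⟩
  rcases h1 with ⟨h3, x, h4, h5⟩ | h1
  · refine Or.inl ⟨h3, x, h4, ?_⟩
    intro h6
    rw [map_mul, h6, zero_mul] at h5
    exact h5 rfl
  · exact Or.inr (IsRootOn_mul q h1)

theorem Loc_mul [Finite σ] {f g : MvPolynomial σ k} {W : Set (σ → ℂ)} (q : MvPolynomial σ k)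
    (h : Loc k f (g * q) W) : Loc k f g W := by
  obtain ⟨S, h1, h2, h3⟩ := h
  exact ⟨S, h1, h2, fun p hp => EigOn_mul q (h3 p hp)⟩

/-- basic locally closed sets -/
def Bas (T : List (MvPolynomial σ k)) (q : MvPolynomial σ k) : Set (σ → ℂ) :=
  {x | (∀ p ∈ T, aeval x p = 0) ∧ aeval x q ≠ 0}

theorem isCons_Bas (T : List (MvPolynomial σ k)) (q : MvPolynomial σ k) :
    IsCons k (Bas T q) := by
  induction T with
  | nil =>
    have : Bas ([] : List (MvPolynomial σ k)) q = Dg q := by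
      ext x
      simp [Bas, Dg]
    rw [this]
    exact isCons_Dg q
  | cons p T ih =>
    have : Bas (p :: T) q = {x | aeval x p = 0} ∩ Bas T q := by
      ext x
      simp [Bas, and_assoc]
    rw [this]
    exact (IsCons.zero p).inter ih

theorem Bas_split (p : MvPolynomial σ k) (T : List (MvPolynomial σ k)) (q : MvPolynomial σ k) :
    Bas (p :: T) q ∪ Bas T (q * p) = Bas T q := by
  ext x
  simp only [Bas, Set.mem_union, Set.mem_ofPred_eq, List.mem_cons, forall_eq_or_imp, map_mul,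
    mul_ne_zero_iff]
  constructor
  · rintro (⟨⟨-, h1⟩, h2⟩ | ⟨h1, h2, -⟩)
    · exact ⟨h1, h2⟩
    · exact ⟨h1, h2⟩
  · rintro ⟨h1, h2⟩
    by_cases h : aeval x p = 0
    · exact Or.inl ⟨⟨h, h1⟩, h2⟩
    · exact Or.inr ⟨h1, h2, h⟩

theorem Bas_disj (p : MvPolynomial σ k) (T : List (MvPolynomial σ k)) (q : MvPolynomial σ k) :
    Disjoint (Bas (p :: T) q) (Bas T (q * p)) := by
  rw [Set.disjoint_left]
  rintro x ⟨h1, -⟩ ⟨-, h2⟩
  rw [map_mul, h1 p (by simp), mul_zero] at h2
  exact h2 rfl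

theorem Loc_Bas [Finite σ] {f : MvPolynomial σ k} (H : ∀ g : MvPolynomial σ k, Loc k f g (Dg g))
    (g : MvPolynomial σ k) (T : List (MvPolynomial σ k)) :
    ∀ q : MvPolynomial σ k, Loc k f g (Bas T (g * q)) := by
  induction T with
  | nil =>
    intro q
    have : Bas ([] : List (MvPolynomial σ k)) (g * q) = Dg (g * q) := by
      ext x
      simp [Bas, Dg]
    rw [this]
    exact Loc_mul q (H (g * q))
  | cons p T ih =>
    intro q
    refine Loc_diff (isCons_Bas _ _) (isCons_Bas T (g * q * p)) (Bas_disj _ _ _) ?_ ?_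
    · rw [Bas_split]
      exact ih q
    · rw [mul_assoc]
      exact ih (q * p)

/-- constructible sets are unions of atoms -/
theorem exists_list {W : Set (σ → ℂ)} (hW : IsCons k W) : ∃ Ls : List (MvPolynomial σ k),
    ∀ x y : σ → ℂ, (∀ p ∈ Ls, aeval x p = 0 ↔ aeval y p = 0) → (x ∈ W ↔ y ∈ W) := by
  induction hW with
  | zero p => exact ⟨[p], fun x y h => h p (by simp)⟩
  | compl _ ih =>
    obtain ⟨Ls, h⟩ := ih
    exact ⟨Ls, fun x y hxy => not_congr (h x y hxy)⟩
  | inter _ _ ih1 ih2 =>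
    obtain ⟨L1, h1⟩ := ih1
    obtain ⟨L2, h2⟩ := ih2
    exact ⟨L1 ++ L2, fun x y hxy => and_congr
      (h1 x y fun p hp => hxy p (List.mem_append_left _ hp))
      (h2 x y fun p hp => hxy p (List.mem_append_right _ hp))⟩

theorem Loc_inter_Bas [Finite σ] {f : MvPolynomial σ k}
    (H : ∀ g : MvPolynomial σ k, Loc k f g (Dg g)) (g : MvPolynomial σ k) {W : Set (σ → ℂ)}
    (hW : IsCons k W) (Ls : List (MvPolynomial σ k)) :
    ∀ (T : List (MvPolynomial σ k)) (q : MvPolynomial σ k),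
      (∀ x ∈ Bas T (g * q), ∀ y ∈ Bas T (g * q), (∀ p ∈ Ls, aeval x p = 0 ↔ aeval y p = 0) →
        (x ∈ W ↔ y ∈ W)) → Loc k f g (W ∩ Bas T (g * q)) := by
  induction Ls with
  | nil =>
    intro T q h
    by_cases h1 : (W ∩ Bas T (g * q)).Nonempty
    · obtain ⟨x, hx, hx'⟩ := h1
      have : W ∩ Bas T (g * q) = Bas T (g * q) := by
        apply Set.inter_eq_self_of_subset_right
        intro y hy
        exact (h x hx' y hy (by simp)).1 hx
      rw [this]
      exact Loc_Bas H g T q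
    · rw [Set.not_nonempty_iff_eq_empty] at h1
      rw [h1]
      exact Loc_empty f g
  | cons p Ls ih =>
    intro T q h
    have h1 : W ∩ Bas T (g * q) = (W ∩ Bas (p :: T) (g * q)) ∪ (W ∩ Bas T (g * (q * p))) := by
      rw [← Set.inter_union_distrib_left, ← mul_assoc, Bas_split]
    rw [h1]
    refine Loc_union (hW.inter (isCons_Bas _ _)) (hW.inter (isCons_Bas _ _)) ?_ ?_ ?_
    · refine Disjoint.mono Set.inter_subset_right Set.inter_subset_right ?_
      rw [← mul_assoc]
      exact Bas_disj _ _ _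
    · refine ih (p :: T) q fun x hx y hy hxy => ?_
      have hx' : x ∈ Bas T (g * q) := by
        rw [← Bas_split p]
        exact Or.inl hx
      have hy' : y ∈ Bas T (g * q) := by
        rw [← Bas_split p]
        exact Or.inl hy
      refine h x hx' y hy' fun r hr => ?_
      rcases List.mem_cons.1 hr with rfl | hr
      · rw [hx.1 r (by simp), hy.1 r (by simp)]
      · exact hxy r hr
    · refine ih T (q * p) fun x hx y hy hxy => ?_
      rw [← mul_assoc] at hx hy
      have hx' : x ∈ Bas T (g * q) := by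
        rw [← Bas_split p]
        exact Or.inr hx
      have hy' : y ∈ Bas T (g * q) := by
        rw [← Bas_split p]
        exact Or.inr hy
      refine h x hx' y hy' fun r hr => ?_
      rcases List.mem_cons.1 hr with rfl | hr
      · have h3 := hx.2
        have h4 := hy.2
        rw [map_mul, mul_ne_zero_iff] at h3 h4
        exact iff_of_false h3.2 h4.2
      · exact hxy r hr

/-- the local conjecture for principal open supports implies it for all constructible supports -/
theorem Loc_cons [Finite σ] {f : MvPolynomial σ k}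
    (H : ∀ g : MvPolynomial σ k, Loc k f g (Dg g)) (g : MvPolynomial σ k) {W : Set (σ → ℂ)}
    (hW : IsCons k W) (hWg : ∀ x ∈ W, aeval x g ≠ 0) : Loc k f g W := by
  obtain ⟨Ls, hLs⟩ := exists_list hW
  have h := Loc_inter_Bas H g hW Ls [] 1 (fun x _ y _ hxy => hLs x y hxy)
  have h1 : W ∩ Bas [] (g * 1) = W := by
    apply Set.inter_eq_self_of_subset_left
    intro x hx
    refine ⟨by simp, ?_⟩
    rw [mul_one]
    exact hWg x hx
  rwa [h1] at h

/-! ### principal open supports -/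

theorem EigOn_locz {f g : MvPolynomial σ k} (h0 : ∃ x : σ → ℂ, aeval x f = 0 ∧ aeval x g ≠ 0)
    {a : ℤ} {b : ℕ} (hb : 0 < b) (h : Eig k (locz k f g) a b) : EigOn k g f (a + b) b := by
  have : CharZero k := (algebraMap k ℂ).charZero
  obtain ⟨α, h1, z, h2⟩ := h
  have hb' : (b : ℚ) ≠ 0 := by exact_mod_cast hb.ne'
  rcases h1 with rfl | h1
  · refine ⟨-1, Or.inl ⟨rfl, h0⟩, z - 1, ?_⟩
    push_cast
    rw [← h2]
    field_simp
    ring
  · rcases IsRoot_locz h1 with rfl | h3
    · refine ⟨-1, Or.inl ⟨rfl, h0⟩, z - 1, ?_⟩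
      push_cast
      rw [← h2]
      field_simp
      ring
    · refine ⟨α + 1, Or.inr h3, z, ?_⟩
      rw [← h2]
      push_cast
      field_simp
      ring

theorem Loc_Dg [Finite σ] (f g : MvPolynomial σ k) (H1 : MC' k (locz k f g))
    (H2 : MC' k (stab k (locz k f g))) : Loc k f g (Dg g) := by
  classical
  have : CharZero k := (algebraMap k ℂ).charZero
  by_cases h0 : ∃ x : σ → ℂ, aeval x f = 0 ∧ aeval x g ≠ 0
  · obtain ⟨S1, p1, z1, e1⟩ := H1
    obtain ⟨S2, p2, z2, e2⟩ := H2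
    refine ⟨({(-1, 1), (-2, 1)} ∪ S1 ∪
      S2.image (fun p : ℤ × ℕ => (p.1 + p.2, p.2))).image (fun p : ℤ × ℕ => (p.1 + p.2, p.2)),
      ?_, ?_, ?_⟩
    · intro p hp
      simp only [Finset.mem_image, Finset.mem_union, Finset.mem_insert, Finset.mem_singleton] at hp
      obtain ⟨q, ((rfl | rfl) | hq) | ⟨r, hr, rfl⟩, rfl⟩ := hp
      · simp
      · simp
      · exact p1 q hq
      · exact p2 r hr
    · have := ZW_mem f g S1 S2 z1 z2
      push_cast
      exact this
    · intro p hp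
      simp only [Finset.mem_image, Finset.mem_union, Finset.mem_insert, Finset.mem_singleton] at hp
      obtain ⟨q, ((rfl | rfl) | hq) | ⟨r, hr, rfl⟩, rfl⟩ := hp
      · exact ⟨-1, Or.inl ⟨rfl, h0⟩, -1, by norm_num⟩
      · exact ⟨-1, Or.inl ⟨rfl, h0⟩, 0, by norm_num⟩
      · exact EigOn_locz h0 (p1 q hq) (e1 q hq)
      · exact EigOn_locz h0 (p2 r hr) (Eig_stab (p2 r hr) (e2 r hr))
  · refine ⟨∅, by simp, ?_, by simp⟩
    have h1 : ZmotW k (Dg g) f = PowerSeries.C (mot k (YW k 1 1 f (Dg g))) := by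
      ext d
      rw [PowerSeries.coeff_C]
      simp only [ZmotW, PowerSeries.coeff_mk]
      rcases d with _ | d
      · simp
      · rw [if_neg (Nat.succ_ne_zero d)]
        have h2 : YW k (d + 1 + 1) 1 f (Dg g) = ∅ := by
          rw [Set.eq_empty_iff_forall_notMem]
          rintro x ⟨hx1, hx2⟩
          refine h0 ⟨_, ?_, hx2⟩
          rw [← constantCoeff_arcEval, ← PowerSeries.coeff_zero_eq_constantCoeff_apply,
            hx1 0 (by omega), if_neg (by omega)]
        rw [h2, mot, cl_empty, map_zero, zero_mul]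
    rw [h1]
    exact C_mem_RS _ _

omit [Algebra k ℂ] in
theorem locz_not_const (f g : MvPolynomial σ k) : (locz k f g).totalDegree ≠ 0 := by
  intro h
  rw [totalDegree_eq_zero_iff_eq_C] at h
  have h1 := congrArg (aeval (Sum.elim (fun _ => 0) (fun _ => 0) : σ ⊕ Bool → k)) h
  have h2 := congrArg (aeval (Sum.elim (fun _ => 0) (fun b => if b = true then 0 else 1) :
    σ ⊕ Bool → k)) h
  rw [MvPolynomial.aeval_C] at h1 h2
  have h3 := h1.trans h2.symm
  simp only [locz, map_add, map_mul, map_sub, aeval_rename, aeval_X, map_one, Sum.elim_inr,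
    zero_mul, add_zero, if_true, mul_zero, zero_sub] at h3
  have h4 : (Sum.elim (fun _ => 0) (fun b => if b = true then 0 else 1) : σ ⊕ Bool → k) ∘
      Sum.inl = (Sum.elim (fun _ => 0) (fun _ => 0) : σ ⊕ Bool → k) ∘ Sum.inl := rfl
  rw [h4] at h3
  simp at h3

/-- transfer of the hypothesis to arbitrary finite index types -/
theorem MC'_of_fin (H : ∀ (n : ℕ) (f : MvPolynomial (Fin n) k), f.totalDegree ≠ 0 → MC' k f)
    (τ : Type) [Finite τ] (F : MvPolynomial τ k) (hF : F.totalDegree ≠ 0) : MC' k F := by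
  have : Fintype τ := Fintype.ofFinite _
  let e := Fintype.equivFin τ
  have h3 : rename e.symm (rename e F) = F := by
    rw [rename_rename]
    simp
  have h1 := H (Fintype.card τ) (rename e F) ?_
  · have h2 := MC'_equiv (k := k) ?_ (renameEquiv k e.symm) h1
    · have h4 : (renameEquiv k e.symm) (rename e F) = F := h3
      rw [h4] at h2
      exact h2
    · simp
  · intro h2
    apply hF
    have h4 : (rename e.symm (rename e F)).totalDegree ≤ 0 := by
      rw [← h2]
      exact totalDegree_rename_le _ _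
    rw [h3] at h4
    exact Nat.le_zero.1 h4

/-- the local conjecture follows from the global one -/
theorem Loc_of_global
    (H : ∀ (n : ℕ) (f : MvPolynomial (Fin n) k), f.totalDegree ≠ 0 → MC' k f)
    {σ : Type} [Finite σ] (f g : MvPolynomial σ k) {W : Set (σ → ℂ)} (hW : IsCons k W)
    (hWg : ∀ x ∈ W, aeval x g ≠ 0) : Loc k f g W := by
  refine Loc_cons (fun g => Loc_Dg f g ?_ ?_) g hW hWg
  · exact MC'_of_fin H _ _ (locz_not_const f g)
  · exact MC'_of_fin H _ _ (totalDegree_stab _)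

theorem MC'_of_Loc [Finite σ] {f : MvPolynomial σ k} (h : Loc k f 1 Set.univ) : MC' k f := by
  obtain ⟨S, h1, h2, h3⟩ := h
  rw [ZmotW_univ] at h2
  refine ⟨S, h1, h2, fun p hp => ?_⟩
  obtain ⟨α, h4, h5⟩ := h3 p hp
  refine ⟨α, ?_, h5⟩
  rcases h4 with ⟨h4, -⟩ | h4
  · exact Or.inl h4
  · right
    intro b hb
    obtain ⟨d, P, hP, hb⟩ := hb
    refine h4 b ⟨0, d, P, hP, fun n => ?_⟩
    rw [hb n]
    simp

end

end Pool.Agent.H39.MonoLoc
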